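import Pool.Agent.IIC.Defs

set_option autoImplicit false
set_option linter.unusedVariables false
set_option linter.unusedSectionVars false

namespace Pool.Agent.IIC

open MeasureTheory ProbabilityTheory
open scoped ENNReal NNReal

variable {Γ : Type} [Group Γ]

/-! ## definitions for module G -/

/-- The part of `G` beyond the directed edge `(g,y)`: everything joined to `y` without the edge. -/
def Beyond {V : Type} (G : SimpleGraph V) (g y : V) : Set V :=
  {v | (G.deleteEdges {s(g, y)}).Reachable y v}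

/-- `(g,y)` is a dead end of `G` attached to the trunk (the trails from `o` to `F`). -/
structure DeadEnd {V : Type} (G : SimpleGraph V) (o : V) (F : Set V) (g y : V) : Prop where
  adj : G.Adj g y
  bridge : g ∉ Beyond G g y
  root : o ∉ Beyond G g y
  target : ∀ t ∈ F, t ∉ Beyond G g y
  trunk : ∃ t ∈ F, ∃ w : G.Walk o t, w.IsTrail ∧ g ∈ w.support

/-- vertices at distance at least `n` from `1` -/
def far (S : Finset Γ) (n : ℕ) : Set Γ := {y | n ≤ (cay S).dist 1 y}

/-- the cluster of `w` meets `F` -/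
def meets (S : Finset Γ) (F : Set Γ) (w : Γ) (ω : Cfg Γ) : Prop := ∃ f ∈ F, f ∈ clus S ω w

/-- the potential -/
noncomputable def pot (S : Finset Γ) (p : ℝ≥0) (hp : p ≤ 1) (y : Γ) : ℝ :=
  - Real.log (tau S p hp 1 y).toReal

/-- vertices on an open trail from `1` to `F` -/
def trunk (S : Finset Γ) (F : Set Γ) (ω : Cfg Γ) : Set Γ :=
  {x | ∃ z ∈ F, ∃ w : (opn S ω).Walk 1 z, w.IsTrail ∧ x ∈ w.support}

/-- total size of the dead ends attached in the ball of radius `t` about `x`, as a fraction of
the cluster of `1` -/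
noncomputable def gx (S : Finset Γ) (F : Set Γ) (t : ℕ) (x : Γ) (ω : Cfg Γ) : ℝ≥0∞ :=
  ∑ g ∈ ball S x t, ∑ s ∈ S,
    Set.indicator {ω : Cfg Γ | DeadEnd (opn S ω) 1 F g (g * s)}
      (fun ω => ((Beyond (opn S ω) g (g * s)).encard : ℝ≥0∞) / sz S ω 1) ω

/-- the configuration obtained by giving the edges of `T S (ball S x t)` the pattern `A` -/
noncomputable def pat (S : Finset Γ) (t : ℕ) (x : Γ) (A : Finset (Sym2 Γ)) (ω : Cfg Γ) : Cfg Γ := by
  classical
  exact ovr ω (T S (ball S x t)) (fun e => decide (e ∈ A))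

/-- the cluster of `1` is exactly `H` and `x` is on the trunk -/
def evt (S : Finset Γ) (F : Set Γ) (H : Finset Γ) (x : Γ) : Set (Cfg Γ) :=
  {ω | clus S ω 1 = ↑H ∧ x ∈ trunk S F ω}

end Pool.Agent.IIC
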