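import Pool.Agent.IICG.Defs

set_option autoImplicit false
set_option linter.unusedVariables false
set_option linter.unusedSectionVars false

/-!
# Zero density of the incipient infinite cluster: definitions

`Γ` is a group, `S` a finite set (symmetric, generating, in the theorem).  Bond percolation on the
Cayley graph `cay S` is modelled on configurations `Cfg Γ = Sym2 Γ → Bool`; only the bits at edges
of the Cayley graph are used.
-/

namespace Pool.Agent.IIC
open MeasureTheory ProbabilityTheory
open scoped ENNReal NNReal
variable {Γ : Type} [Group Γ]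


theorem Beyond_eq (S : Finset Γ) (ω : Cfg Γ) (g y : Γ) :
    Beyond (opn S ω) g y = clus S (upd ω s(g, y) false) y := by
  classical
  have h : (opn S ω).deleteEdges {s(g, y)} = opn S (upd ω s(g, y) false) := by
    ext a b
    rw [SimpleGraph.deleteEdges_adj]
    show ((cay S).Adj a b ∧ ω s(a, b) = true) ∧ s(a, b) ∉ ({s(g, y)} : Set (Sym2 Γ)) ↔
      ((cay S).Adj a b ∧ upd ω s(g, y) false s(a, b) = true)
    unfold upd ovr
    by_cases h1 : s(a, b) = s(g, y)
    · rw [h1]
      simp
    · have h2 : s(a, b) ∉ ({s(g, y)} : Finset (Sym2 Γ)) := by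
        rw [Finset.mem_singleton]
        exact h1
      have h3 : s(a, b) ∉ ({s(g, y)} : Set (Sym2 Γ)) := by
        rw [Set.mem_singleton_iff]
        exact h1
      rw [if_neg h2]
      tauto
  unfold Beyond clus
  rw [h]

end Pool.Agent.IIC
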