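import Pool.Agent.IICG.Defs
import Pool.Agent.IIC.P_cay_adj
import Pool.Agent.IIC.P_cay_conn
import Pool.Agent.IIC.P_avg_exists

set_option autoImplicit false
set_option linter.unusedVariables false
set_option linter.unusedSectionVars false

/-!
# Zero density of the incipient infinite cluster: definitions

`Γ` is a group, `S` a finite set (symmetric, generating, in the theorem).  Bond percolation on the
Cayley graph `cay S` is modelled on configurations `Cfg Γ = Sym2 Γ → Bool`; only the bits at edges
of the Cayley graph are used.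
-/

namespace Pool.Agent.IIC
open MeasureTheory ProbabilityTheory
open scoped ENNReal NNReal
variable {Γ : Type} [Group Γ]


theorem avg_exists_dist_step {S : Finset Γ} (hS : Symm S) (x s : Γ) (hs : s ∈ S) :
    (cay S).dist x (x * s) ≤ 1 := by
  by_cases h : x = x * s
  · rw [← h, SimpleGraph.dist_self]; exact Nat.zero_le _
  · have : (cay S).Adj x (x * s) := by
      rw [cay_adj hS]
      refine ⟨h, ?_⟩
      rw [inv_mul_cancel_left]
      exact hs
    rw [SimpleGraph.dist_eq_one_iff_adj.mpr this]

theorem avg_exists_dist_list {S : Finset Γ} (hS : Symm S) (hg : Gen S) (w : List Γ) :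
    (∀ s ∈ w, s ∈ S) → ∀ x : Γ, (cay S).dist x (x * w.prod) ≤ w.length := by
  induction w with
  | nil =>
    intro _ x
    simp
  | cons s w ih =>
    intro h x
    rw [List.prod_cons, List.length_cons, ← mul_assoc]
    have h1 := avg_exists_dist_step hS x s (h s (by simp))
    have h2 := ih (fun a ha => h a (List.mem_cons_of_mem _ ha)) (x * s)
    have h3 := (cay_conn hS hg).dist_triangle (u := x) (v := x * s) (w := x * s * w.prod)
    omega

theorem avg_exists_dist {S : Finset Γ} (hS : Symm S) (hg : Gen S) (hne : S.Nonempty) (t : ℕ)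
    (f : Γ → ℝ≥0∞) (x : Γ) : ∃ u, (cay S).dist x u ≤ t ∧ f u ≤ avg S t f x := by
  obtain ⟨w, hw1, hw2, hw3⟩ := avg_exists hne t f x
  refine ⟨x * w.prod, ?_, hw3⟩
  rw [← hw1]
  exact avg_exists_dist_list hS hg w hw2 x

end Pool.Agent.IIC
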