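import Pool.Agent.IICG.Defs
import Pool.Agent.IIC.P_cay_adj
import Pool.Agent.IIC.P_cay_conn
import Pool.Agent.IIC.P_avg_le_of_le

set_option autoImplicit false
set_option linter.unusedVariables false
set_option linter.unusedSectionVars false

/-!
# Zero density of the incipient infinite cluster: definitions

`Γ` is a group, `S` a finite set (symmetric, generating, in the theorem).  Bond percolation on the
Cayley graph `cay S` is modelled on configurations `Cfg Γ = Sym2 Γ → Bool`; only the bits at edges
of the Cayley graph are used.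
-/

namespace Pool.Agent.IIC
open MeasureTheory ProbabilityTheory
open scoped ENNReal NNReal
variable {Γ : Type} [Group Γ]


theorem dist_step_le' {S : Finset Γ} (hS : Symm S) (x s : Γ) (hs : s ∈ S) :
    (cay S).dist x (x * s) ≤ 1 := by
  by_cases h : x = x * s
  · rw [← h, SimpleGraph.dist_self]; exact Nat.zero_le _
  · have hadj : (cay S).Adj x (x * s) := by
      rw [cay_adj hS]
      exact ⟨h, by simpa using hs⟩
    exact le_of_eq (SimpleGraph.dist_eq_one_iff_adj.2 hadj)

theorem dist_prod_le' {S : Finset Γ} (hS : Symm S) (hg : Gen S) (w : List Γ)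
    (hw : ∀ s ∈ w, s ∈ S) (x : Γ) : (cay S).dist x (x * w.prod) ≤ w.length := by
  induction w generalizing x with
  | nil => simp
  | cons s w ih =>
    have h1 := dist_step_le' hS x s (hw s (by simp))
    have h2 := ih (fun r hr => hw r (by simp [hr])) (x * s)
    have h3 := (cay_conn hS hg).dist_triangle (u := x) (v := x * s) (w := x * s * w.prod)
    rw [List.prod_cons, List.length_cons, ← mul_assoc]
    omega

theorem avg_le_dist {S : Finset Γ} (hS : Symm S) (hg : Gen S) (hne : S.Nonempty) (t : ℕ)
    (f : Γ → ℝ≥0∞) (x : Γ) (b : ℝ≥0∞) (hb : ∀ u, (cay S).dist x u ≤ t → f u ≤ b) :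
    avg S t f x ≤ b := by
  apply avg_le_of_le hne t f x b
  intro w hw hws
  apply hb
  rw [← hw]
  exact dist_prod_le' hS hg w hws x

end Pool.Agent.IIC
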