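import Pool.Agent.IICG.Defs
import Pool.Agent.IIC.P_harris_tau
import Pool.Agent.IIC.P_tau_symm
import Pool.Agent.IIC.P_tau_adj
import Pool.Agent.IIC.P_tau_pos

set_option autoImplicit false
set_option linter.unusedVariables false
set_option linter.unusedSectionVars false

/-!
# Zero density of the incipient infinite cluster: definitions

`Γ` is a group, `S` a finite set (symmetric, generating, in the theorem).  Bond percolation on the
Cayley graph `cay S` is modelled on configurations `Cfg Γ = Sym2 Γ → Bool`; only the bits at edges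
of the Cayley graph are used.
-/

namespace Pool.Agent.IIC
open MeasureTheory ProbabilityTheory
open scoped ENNReal NNReal
variable {Γ : Type} [Group Γ]


theorem pot_aux [Countable Γ] {S : Finset Γ} (hS : Symm S) (hg : Gen S) (p : ℝ≥0) (hp : p ≤ 1)
    (hp0 : 0 < p) (x y : Γ) (h : (cay S).Adj x y) :
    pot S p hp y - pot S p hp x ≤ - Real.log p := by
  have h1 := harris_tau S p hp 1 x y
  have h2 := tau_adj (S := S) p hp x y h
  have hle : ∀ z : Γ, tau S p hp 1 z ≤ 1 := fun z => prob_le_one
  have htop : ∀ z : Γ, tau S p hp 1 z ≠ ⊤ := fun z => ne_top_of_le_ne_top ENNReal.one_ne_top (hle z)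
  have h3 : tau S p hp 1 x * (p : ℝ≥0∞) ≤ tau S p hp 1 y :=
    (mul_le_mul_right h2 _).trans h1
  have hx : 0 < (tau S p hp 1 x).toReal :=
    ENNReal.toReal_pos (tau_pos hS hg p hp hp0 1 x).ne' (htop x)
  have h4 := ENNReal.toReal_mono (htop y) h3
  rw [ENNReal.toReal_mul, ENNReal.coe_toReal] at h4
  have hpr : (0:ℝ) < p := by exact_mod_cast hp0
  have h5 := Real.log_le_log (by positivity) h4
  rw [Real.log_mul hx.ne' hpr.ne'] at h5
  unfold pot
  linarith

theorem pot_adj [Countable Γ] {S : Finset Γ} (hS : Symm S) (hg : Gen S) (p : ℝ≥0) (hp : p ≤ 1)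
    (hp0 : 0 < p) (x y : Γ) (h : (cay S).Adj x y) :
    |pot S p hp x - pot S p hp y| ≤ - Real.log p := by
  rw [abs_le]
  have h1 := pot_aux hS hg p hp hp0 x y h
  have h2 := pot_aux hS hg p hp hp0 y x h.symm
  constructor <;> linarith

end Pool.Agent.IIC
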