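import Pool.Agent.IICG.Defs
import Pool.Agent.IIC.P_cay_conn
import Pool.Agent.IICG.P_pot_adj

set_option autoImplicit false
set_option linter.unusedVariables false
set_option linter.unusedSectionVars false

/-!
# Zero density of the incipient infinite cluster: definitions

`Γ` is a group, `S` a finite set (symmetric, generating, in the theorem).  Bond percolation on the
Cayley graph `cay S` is modelled on configurations `Cfg Γ = Sym2 Γ → Bool`; only the bits at edges
of the Cayley graph are used.
-/

namespace Pool.Agent.IIC
open MeasureTheory ProbabilityTheory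
open scoped ENNReal NNReal
variable {Γ : Type} [Group Γ]


theorem pot_dist [Countable Γ] {S : Finset Γ} (hS : Symm S) (hg : Gen S) (p : ℝ≥0) (hp : p ≤ 1)
    (hp0 : 0 < p) (x y : Γ) (t : ℕ) (h : (cay S).dist x y ≤ t) :
    |pot S p hp x - pot S p hp y| ≤ t * (- Real.log p) := by
  have hlog : 0 ≤ - Real.log (p : ℝ) := by
    have := Real.log_nonpos (p.coe_nonneg) (by exact_mod_cast hp : (p : ℝ) ≤ 1)
    linarith
  obtain ⟨w, hw⟩ := (cay_conn hS hg).exists_walk_length_eq_dist x y
  have key : ∀ (a b : Γ) (w : (cay S).Walk a b),
      |pot S p hp a - pot S p hp b| ≤ w.length * (- Real.log p) := by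
    intro a b w
    induction w with
    | nil => simp
    | cons hadj w' ih =>
      rename_i u v w0
      have h1 := pot_adj hS hg p hp hp0 _ _ hadj
      have h2 := abs_sub_le (pot S p hp u) (pot S p hp v) (pot S p hp w0)
      rw [SimpleGraph.Walk.length_cons]
      push_cast
      nlinarith
  have h3 := key x y w
  have h4 : (w.length : ℝ) ≤ t := by rw [hw]; exact_mod_cast h
  nlinarith

end Pool.Agent.IIC
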