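import Pool.Agent.IICG.Defs
import Pool.Agent.IIC.P_tau_pos

set_option autoImplicit false
set_option linter.unusedVariables false
set_option linter.unusedSectionVars false

/-!
# Zero density of the incipient infinite cluster: definitions

`Γ` is a group, `S` a finite set (symmetric, generating, in the theorem).  Bond percolation on the
Cayley graph `cay S` is modelled on configurations `Cfg Γ = Sym2 Γ → Bool`; only the bits at edges
of the Cayley graph are used.
-/

namespace Pool.Agent.IIC
open MeasureTheory ProbabilityTheory
open scoped ENNReal NNReal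
variable {Γ : Type} [Group Γ]


theorem tau_eq_pot [Countable Γ] {S : Finset Γ} (hS : Symm S) (hg : Gen S) (p : ℝ≥0) (hp : p ≤ 1)
    (hp0 : 0 < p) (y : Γ) : tau S p hp 1 y = ENNReal.ofReal (Real.exp (- pot S p hp y)) := by
  have h1 := tau_pos hS hg p hp hp0 1 y
  have h2 : tau S p hp 1 y ≠ ⊤ := by
    unfold tau
    exact measure_ne_top _ _
  have h3 : 0 < (tau S p hp 1 y).toReal := ENNReal.toReal_pos h1.ne' h2
  unfold pot
  rw [neg_neg, Real.exp_log h3, ENNReal.ofReal_toReal h2]

end Pool.Agent.IIC
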