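import Pool.Agent.IICG.Defs
import Pool.Agent.IIC.P_harris_tau
import Pool.Agent.IIC.P_tau_symm
import Pool.Agent.IIC.P_tau_pos
import Pool.Agent.IICG.P_tau_eq_pot

set_option autoImplicit false
set_option linter.unusedVariables false
set_option linter.unusedSectionVars false

/-!
# Zero density of the incipient infinite cluster: definitions

`Γ` is a group, `S` a finite set (symmetric, generating, in the theorem).  Bond percolation on the
Cayley graph `cay S` is modelled on configurations `Cfg Γ = Sym2 Γ → Bool`; only the bits at edges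
of the Cayley graph are used.
-/

namespace Pool.Agent.IIC
open MeasureTheory ProbabilityTheory
open scoped ENNReal NNReal
variable {Γ : Type} [Group Γ]


theorem tau_le_exp_aux (t : ℝ≥0∞) (a b : ℝ)
    (h : ENNReal.ofReal (Real.exp (-a)) * t ≤ ENNReal.ofReal (Real.exp (-b))) :
    t ≤ ENNReal.ofReal (Real.exp (a - b)) := by
  have h1 : ENNReal.ofReal (Real.exp a) * ENNReal.ofReal (Real.exp (-a)) = 1 := by
    rw [← ENNReal.ofReal_mul (Real.exp_pos _).le, ← Real.exp_add, add_neg_cancel, Real.exp_zero,
      ENNReal.ofReal_one]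
  calc t = ENNReal.ofReal (Real.exp a) * (ENNReal.ofReal (Real.exp (-a)) * t) := by
        rw [← mul_assoc, h1, one_mul]
    _ ≤ ENNReal.ofReal (Real.exp a) * ENNReal.ofReal (Real.exp (-b)) := by gcongr
    _ = ENNReal.ofReal (Real.exp (a - b)) := by
        rw [← ENNReal.ofReal_mul (Real.exp_pos _).le, ← Real.exp_add, ← sub_eq_add_neg]

theorem tau_le_exp [Countable Γ] {S : Finset Γ} (hS : Symm S) (hg : Gen S) (p : ℝ≥0) (hp : p ≤ 1)
    (hp0 : 0 < p) (x y : Γ) :
    tau S p hp x y ≤ ENNReal.ofReal (Real.exp (- |pot S p hp x - pot S p hp y|)) := by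
  have h1 := harris_tau S p hp 1 x y
  have h2 := harris_tau S p hp 1 y x
  rw [tau_symm S p hp y x] at h2
  rw [tau_eq_pot hS hg p hp hp0 x, tau_eq_pot hS hg p hp hp0 y] at h1 h2
  have h3 := tau_le_exp_aux _ _ _ h1
  have h4 := tau_le_exp_aux _ _ _ h2
  rcases le_total 0 (pot S p hp x - pot S p hp y) with h | h
  · rw [abs_of_nonneg h, neg_sub]; exact h4
  · rw [abs_of_nonpos h, neg_neg]; exact h3

end Pool.Agent.IIC
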