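import Pool.Agent.IICG.Defs
import Pool.Agent.IICG.P_pot_dist
import Pool.Agent.IICG.P_tau_le_exp
import Pool.Agent.IICG.P_avg_le_dist

set_option autoImplicit false
set_option linter.unusedVariables false
set_option linter.unusedSectionVars false

/-!
# Zero density of the incipient infinite cluster: definitions

`Γ` is a group, `S` a finite set (symmetric, generating, in the theorem).  Bond percolation on the
Cayley graph `cay S` is modelled on configurations `Cfg Γ = Sym2 Γ → Bool`; only the bits at edges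
of the Cayley graph are used.
-/

namespace Pool.Agent.IIC
open MeasureTheory ProbabilityTheory
open scoped ENNReal NNReal
variable {Γ : Type} [Group Γ]


/-- combine the spectral bound and the potential bound -/
theorem avg_tau_le [Countable Γ] {S : Finset Γ} (hS : Symm S) (hg : Gen S) (hne : S.Nonempty)
    (p : ℝ≥0) (hp : p ≤ 1) (hp0 : 0 < p) (hp1 : p < 1) (ρ : ℝ≥0) (hρ0 : 0 < ρ) (hρ1 : ρ < 1)
    (hspec : ∀ (k : ℕ) (h x : Γ), avg S k (fun u => tau S p hp u x) h ≤ (ρ : ℝ≥0∞) ^ k) :
    ∃ θ r : ℝ, 0 < θ ∧ 0 < r ∧ r < 1 ∧ ∀ (k : ℕ) (h x : Γ),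
      avg S k (fun u => tau S p hp u x) h ≤
        ENNReal.ofReal (r ^ k * Real.exp (-θ * |pot S p hp h - pot S p hp x|)) := by
  have hp0' : (0:ℝ) < (p:ℝ) := by exact_mod_cast hp0
  have hp1' : (p:ℝ) < 1 := by exact_mod_cast hp1
  have hρ0' : (0:ℝ) < (ρ:ℝ) := by exact_mod_cast hρ0
  have hρ1' : (ρ:ℝ) < 1 := by exact_mod_cast hρ1
  set K : ℝ := - Real.log p with hK
  set L : ℝ := - Real.log ρ with hL
  have hKpos : 0 < K := by
    have := Real.log_neg hp0' hp1'
    rw [hK]; linarith
  have hLpos : 0 < L := by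
    have := Real.log_neg hρ0' hρ1'
    rw [hL]; linarith
  have hKL : 0 < K + L := by linarith
  set θ : ℝ := L / (2 * (K + L)) with hθ
  have hθpos : 0 < θ := by positivity
  have hθeq : θ * (K + L) = L / 2 := by
    rw [hθ]; field_simp
  have hθ1 : θ < 1 := by
    by_contra hcon
    have h1 : 1 ≤ θ := not_lt.1 hcon
    have h2 : 1 * (K + L) ≤ θ * (K + L) := mul_le_mul_of_nonneg_right h1 hKL.le
    rw [hθeq] at h2
    linarith
  refine ⟨θ, Real.exp (-(L / 2)), hθpos, Real.exp_pos _, ?_, ?_⟩
  · rw [Real.exp_lt_one_iff]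
    linarith
  · intro k h x
    set D : ℝ := |pot S p hp h - pot S p hp x| with hD
    -- first bound
    have hA : avg S k (fun u => tau S p hp u x) h ≤ ENNReal.ofReal (Real.exp (-(k * L))) := by
      refine (hspec k h x).trans (le_of_eq ?_)
      have h1 : Real.exp (-(k * L)) = (ρ:ℝ) ^ k := by
        rw [hL, show -((k:ℝ) * -Real.log (ρ:ℝ)) = (k:ℝ) * Real.log (ρ:ℝ) by ring,
          Real.exp_nat_mul, Real.exp_log hρ0']
      rw [h1, ENNReal.ofReal_pow hρ0'.le, ENNReal.ofReal_coe_nnreal]
    -- second bound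
    have hB : avg S k (fun u => tau S p hp u x) h ≤
        ENNReal.ofReal (Real.exp (k * K - D)) := by
      refine avg_le_dist hS hg hne k _ h _ (fun u hu => ?_)
      refine (tau_le_exp hS hg p hp hp0 u x).trans ?_
      apply ENNReal.ofReal_le_ofReal
      apply Real.exp_le_exp.2
      have h1 := pot_dist hS hg p hp hp0 h u k hu
      have h2 : D ≤ |pot S p hp h - pot S p hp u| + |pot S p hp u - pot S p hp x| := by
        rw [hD]
        exact abs_sub_le _ _ _
      rw [← hK] at h1
      linarith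
    have hgoal : Real.exp (-(L / 2)) ^ k * Real.exp (-θ * D) =
        Real.exp (-(k * (L / 2)) - θ * D) := by
      rw [← Real.exp_nat_mul, ← Real.exp_add]
      congr 1
      ring
    rw [hgoal]
    have hcomb : -(k * (L / 2)) - θ * D = (1 - θ) * (-(k * L)) + θ * (k * K - D) := by
      have : (k:ℝ) * (θ * (K + L)) = k * (L / 2) := by rw [hθeq]
      nlinarith [this]
    rw [hcomb]
    rcases le_total (-(k * L)) (k * K - D) with hle | hle
    · refine hA.trans (ENNReal.ofReal_le_ofReal (Real.exp_le_exp.2 ?_))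
      nlinarith [mul_nonneg hθpos.le (sub_nonneg.2 hle)]
    · refine hB.trans (ENNReal.ofReal_le_ofReal (Real.exp_le_exp.2 ?_))
      nlinarith [mul_nonneg (sub_nonneg.2 hθ1.le) (sub_nonneg.2 hle)]

end Pool.Agent.IIC
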