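import Pool.Agent.IICG.Defs
import Pool.Agent.IIC.P_dist_smul
import Pool.Agent.IIC.P_mem_ball

set_option autoImplicit false
set_option linter.unusedVariables false
set_option linter.unusedSectionVars false

/-!
# Zero density of the incipient infinite cluster: definitions

`Γ` is a group, `S` a finite set (symmetric, generating, in the theorem).  Bond percolation on the
Cayley graph `cay S` is modelled on configurations `Cfg Γ = Sym2 Γ → Bool`; only the bits at edges
of the Cayley graph are used.
-/

namespace Pool.Agent.IIC
open MeasureTheory ProbabilityTheory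
open scoped ENNReal NNReal
variable {Γ : Type} [Group Γ]


theorem card_ball {S : Finset Γ} (hS : Symm S) (hg : Gen S) (x : Γ) (t : ℕ) :
    (ball S x t).card = (ball S 1 t).card := by
  symm
  refine Finset.card_bij (fun y _ => x * y) ?_ ?_ ?_
  · intro y hy
    rw [mem_ball hS hg] at hy ⊢
    have h1 := dist_smul (S := S) x 1 y
    rw [mul_one] at h1
    rw [h1]
    exact hy
  · intro a _ b _ hab
    exact mul_left_cancel hab
  · intro z hz
    refine ⟨x⁻¹ * z, ?_, by simp⟩
    rw [mem_ball hS hg] at hz ⊢
    have h1 := dist_smul (S := S) x 1 (x⁻¹ * z)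
    rw [mul_one, mul_inv_cancel_left] at h1
    rw [← h1]
    exact hz

end Pool.Agent.IIC
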