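import Pool.Agent.IICG.Defs
import Pool.Agent.IIC.P_opn_kp

set_option autoImplicit false
set_option linter.unusedVariables false
set_option linter.unusedSectionVars false

/-!
# Zero density of the incipient infinite cluster: definitions

`Γ` is a group, `S` a finite set (symmetric, generating, in the theorem).  Bond percolation on the
Cayley graph `cay S` is modelled on configurations `Cfg Γ = Sym2 Γ → Bool`; only the bits at edges
of the Cayley graph are used.
-/

namespace Pool.Agent.IIC
open MeasureTheory ProbabilityTheory
open scoped ENNReal NNReal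
variable {Γ : Type} [Group Γ]


theorem trunk_kp {S : Finset Γ} (hS : Symm S) (F : Set Γ) (H : Finset Γ) (ω : Cfg Γ)
    (h : clus S ω 1 = ↑H) (x : Γ) : x ∈ trunk S F ω ↔ x ∈ trunk S F (kp S H ω) := by
  classical
  constructor
  · rintro ⟨z, hz, w, hw, hx⟩
    have he : ∀ e ∈ w.edges, e ∈ (opn S (kp S H ω)).edgeSet := by
      intro e he
      induction e using Sym2.ind with
      | _ a b =>
        rw [SimpleGraph.mem_edgeSet, opn_kp hS]
        refine ⟨SimpleGraph.Walk.adj_of_mem_edges w he, Or.inl ?_⟩
        have ha : a ∈ w.support := SimpleGraph.Walk.fst_mem_support_of_mem_edges w he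
        have hr : a ∈ clus S ω 1 := (w.takeUntil a ha).reachable
        rw [h] at hr
        exact hr
    refine ⟨z, hz, w.transfer _ he, ?_, ?_⟩
    · rw [SimpleGraph.Walk.isTrail_def, SimpleGraph.Walk.edges_transfer]
      exact (SimpleGraph.Walk.isTrail_def w).1 hw
    · rw [SimpleGraph.Walk.support_transfer]
      exact hx
  · rintro ⟨z, hz, w, hw, hx⟩
    have he : ∀ e ∈ w.edges, e ∈ (opn S ω).edgeSet := by
      intro e he
      induction e using Sym2.ind with
      | _ a b =>
        have h1 := SimpleGraph.Walk.adj_of_mem_edges w he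
        rw [opn_kp hS] at h1
        exact h1.1
    refine ⟨z, hz, w.transfer _ he, ?_, ?_⟩
    · rw [SimpleGraph.Walk.isTrail_def, SimpleGraph.Walk.edges_transfer]
      exact (SimpleGraph.Walk.isTrail_def w).1 hw
    · rw [SimpleGraph.Walk.support_transfer]
      exact hx

end Pool.Agent.IIC
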