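import Pool.Agent.IICG.Defs
import Pool.Agent.IIC.P_clus_kp
import Pool.Agent.IICG.P_trunk_kp

set_option autoImplicit false
set_option linter.unusedVariables false
set_option linter.unusedSectionVars false

/-!
# Zero density of the incipient infinite cluster: definitions

`Γ` is a group, `S` a finite set (symmetric, generating, in the theorem).  Bond percolation on the
Cayley graph `cay S` is modelled on configurations `Cfg Γ = Sym2 Γ → Bool`; only the bits at edges
of the Cayley graph are used.
-/

namespace Pool.Agent.IIC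
open MeasureTheory ProbabilityTheory
open scoped ENNReal NNReal
variable {Γ : Type} [Group Γ]


theorem evt_kp {S : Finset Γ} (hS : Symm S) (F : Set Γ) (H : Finset Γ) (ω : Cfg Γ) (x : Γ) :
    ω ∈ evt S F H x ↔ kp S H ω ∈ evt S F H x := by
  constructor
  · rintro ⟨h1, h2⟩
    exact ⟨(clus_kp hS H ω 1).1 h1, (trunk_kp hS F H ω h1 x).1 h2⟩
  · rintro ⟨h1, h2⟩
    have h3 := (clus_kp hS H ω 1).2 h1
    exact ⟨h3, (trunk_kp hS F H ω h3 x).2 h2⟩

end Pool.Agent.IIC
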