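import Pool.Agent.IICG.Defs
import Pool.Agent.IIC.P_meas_clus

set_option autoImplicit false
set_option linter.unusedVariables false
set_option linter.unusedSectionVars false

/-!
# Zero density of the incipient infinite cluster: definitions

`Γ` is a group, `S` a finite set (symmetric, generating, in the theorem).  Bond percolation on the
Cayley graph `cay S` is modelled on configurations `Cfg Γ = Sym2 Γ → Bool`; only the bits at edges
of the Cayley graph are used.
-/

namespace Pool.Agent.IIC
open MeasureTheory ProbabilityTheory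
open scoped ENNReal NNReal
variable {Γ : Type} [Group Γ]


theorem meas_clus_eq [Countable Γ] (S : Finset Γ) (x : Γ) (H : Finset Γ) :
    MeasurableSet {ω : Cfg Γ | clus S ω x = ↑H} := by
  have h : {ω : Cfg Γ | clus S ω x = ↑H} =
      ⋂ y : Γ, {ω : Cfg Γ | y ∈ clus S ω x ↔ y ∈ (H : Set Γ)} := by
    ext ω
    simp only [Set.mem_iInter]
    constructor
    · intro h y
      have h' : clus S ω x = ↑H := h
      show y ∈ clus S ω x ↔ y ∈ (H : Set Γ)
      rw [h']
    · intro h
      exact Set.ext h
  rw [h]
  refine MeasurableSet.iInter fun y => ?_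
  by_cases hy : y ∈ (H : Set Γ)
  · have : {ω : Cfg Γ | y ∈ clus S ω x ↔ y ∈ (H : Set Γ)} = {ω : Cfg Γ | y ∈ clus S ω x} := by
      ext ω
      exact iff_true_right hy
    rw [this]
    exact meas_clus S x y
  · have : {ω : Cfg Γ | y ∈ clus S ω x ↔ y ∈ (H : Set Γ)} = {ω : Cfg Γ | y ∈ clus S ω x}ᶜ := by
      ext ω
      exact iff_false_right hy
    rw [this]
    exact (meas_clus S x y).compl

end Pool.Agent.IIC
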