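import Pool.Agent.IICG.Defs
import Pool.Agent.IIC.P_meas_opn

set_option autoImplicit false
set_option linter.unusedVariables false
set_option linter.unusedSectionVars false

/-!
# Zero density of the incipient infinite cluster: definitions

`Γ` is a group, `S` a finite set (symmetric, generating, in the theorem).  Bond percolation on the
Cayley graph `cay S` is modelled on configurations `Cfg Γ = Sym2 Γ → Bool`; only the bits at edges
of the Cayley graph are used.
-/

namespace Pool.Agent.IIC
open MeasureTheory ProbabilityTheory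
open scoped ENNReal NNReal
variable {Γ : Type} [Group Γ]


open Classical in
/-- the configuration whose open bits are exactly `E` -/
noncomputable def cE22743 (E : Finset (Sym2 Γ)) : Cfg Γ := fun e => decide (e ∈ E)

theorem cE22743_apply (E : Finset (Sym2 Γ)) (e : Sym2 Γ) : cE22743 E e = true ↔ e ∈ E := by
  simp [cE22743]

theorem trunk_mono_22743 (S : Finset Γ) (F : Set Γ) (ω ω' : Cfg Γ)
    (h : ∀ e, ω e = true → ω' e = true) (x : Γ) (hx : x ∈ trunk S F ω) : x ∈ trunk S F ω' := by
  obtain ⟨z, hz, w, hw, hxw⟩ := hx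
  have hle : opn S ω ≤ opn S ω' := by
    intro a b hab
    exact ⟨hab.1, h _ hab.2⟩
  refine ⟨z, hz, w.mapLe hle, ?_, ?_⟩
  · rw [SimpleGraph.Walk.isTrail_mapLe]
    exact hw
  · rw [SimpleGraph.Walk.support_mapLe_eq_support]
    exact hxw

theorem trunk_fin_22743 (S : Finset Γ) (F : Set Γ) (ω : Cfg Γ) (x : Γ) (hx : x ∈ trunk S F ω) :
    ∃ E : Finset (Sym2 Γ), x ∈ trunk S F (cE22743 E) ∧ ∀ e ∈ E, ω e = true := by
  classical
  obtain ⟨z, hz, w, hw, hxw⟩ := hx
  have key : ∀ e ∈ w.edges, e ∈ (cay S).edgeSet ∧ ω e = true := by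
    intro e he
    have h1 := w.edges_subset_edgeSet he
    induction e using Sym2.ind with
    | _ a b =>
      rw [SimpleGraph.mem_edgeSet] at h1
      exact ⟨h1.1, h1.2⟩
  refine ⟨w.edges.toFinset, ⟨z, hz, ?_⟩, ?_⟩
  · have h2 : ∀ e, e ∈ w.edges → e ∈ (opn S (cE22743 w.edges.toFinset)).edgeSet := by
      intro e he
      have h3 := (key e he).1
      induction e using Sym2.ind with
      | _ a b =>
        rw [SimpleGraph.mem_edgeSet] at h3 ⊢
        refine ⟨h3, ?_⟩
        rw [cE22743_apply, List.mem_toFinset]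
        exact he
    refine ⟨w.transfer _ h2, ?_, ?_⟩
    · rw [SimpleGraph.Walk.isTrail_def, SimpleGraph.Walk.edges_transfer]
      exact (SimpleGraph.Walk.isTrail_def _).1 hw
    · rw [SimpleGraph.Walk.support_transfer]
      exact hxw
  · intro e he
    exact (key e (List.mem_toFinset.1 he)).2

theorem meas_trunk [Countable Γ] (S : Finset Γ) (F : Set Γ) (x : Γ) :
    MeasurableSet {ω : Cfg Γ | x ∈ trunk S F ω} := by
  have : Countable (Sym2 Γ) := by
    unfold Sym2
    infer_instance
  have h1 : {ω : Cfg Γ | x ∈ trunk S F ω} =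
      ⋃ E ∈ {E : Finset (Sym2 Γ) | x ∈ trunk S F (cE22743 E)}, {ω : Cfg Γ | ∀ e ∈ E, ω e = true} := by
    ext ω
    rw [Set.mem_iUnion₂]
    constructor
    · intro hx
      obtain ⟨E, h2, h3⟩ := trunk_fin_22743 S F ω x hx
      exact ⟨E, h2, h3⟩
    · rintro ⟨E, h2, h3⟩
      exact trunk_mono_22743 S F _ ω (fun e he => h3 e ((cE22743_apply E e).1 he)) x h2
  rw [h1]
  refine MeasurableSet.biUnion (Set.to_countable _) fun E _ => ?_
  have h4 : {ω : Cfg Γ | ∀ e ∈ E, ω e = true} = ⋂ e ∈ E, (fun ω : Cfg Γ => ω e) ⁻¹' {true} := by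
    ext ω
    simp
  rw [h4]
  exact Finset.measurableSet_biInter E fun e _ =>
    measurable_pi_apply e (measurableSet_singleton true)

end Pool.Agent.IIC
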