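import Pool.Agent.IICG.Defs
import Pool.Agent.IIC.P_clus_cl
import Pool.Agent.IIC.P_meas_sz
import Pool.Agent.IIC.P_meas_cl
import Pool.Agent.IIC.P_ind_kp_cl
import Pool.Agent.IIC.P_tau_one
import Pool.Agent.IIC.P_off_lemma
import Pool.Agent.IICG.P_meas_trunk
import Pool.Agent.IICG.P_meas_clus_eq
import Pool.Agent.IICG.P_evt_kp

set_option autoImplicit false
set_option linter.unusedVariables false
set_option linter.unusedSectionVars false

/-!
# Zero density of the incipient infinite cluster: definitions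

`Γ` is a group, `S` a finite set (symmetric, generating, in the theorem).  Bond percolation on the
Cayley graph `cay S` is modelled on configurations `Cfg Γ = Sym2 Γ → Bool`; only the bits at edges
of the Cayley graph are used.
-/

namespace Pool.Agent.IIC
open MeasureTheory ProbabilityTheory
open scoped ENNReal NNReal
variable {Γ : Type} [Group Γ]


/-- conditionally on the cluster of `1` being `H`, the cluster of `u` is large -/
theorem evt_lower [Countable Γ] {S : Finset Γ} (hS : Symm S) (hg : Gen S) (p : ℝ≥0) (hp : p ≤ 1)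
    (hfin : Fin0 S p hp) (F : Set Γ) (H : Finset Γ) (x u : Γ)
    (hu : ∑ y ∈ H, tau S p hp u y ≤ 2⁻¹) (M : ℕ) :
    bP Γ p hp (evt S F H x) * (XM S p hp M / 2) ≤
      ∫⁻ ω in evt S F H x, min (sz S ω u) M ∂(bP Γ p hp) := by
  classical
  have hevm : MeasurableSet (evt S F H x) := (meas_clus_eq S 1 H).inter (meas_trunk S F x)
  have huH : u ∉ H := by
    intro h
    have h1 : tau S p hp u u ≤ ∑ y ∈ H, tau S p hp u y :=
      Finset.single_le_sum (f := fun y => tau S p hp u y) (fun _ _ => bot_le) h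
    rw [tau_one] at h1
    have h2 := h1.trans hu
    have h3 : (2⁻¹ : ℝ≥0∞) < 1 := ENNReal.one_half_lt_one
    exact absurd h2 (not_le.2 h3)
  obtain ⟨Ψ, hΨ⟩ : ∃ Ψ : Cfg Γ → ℝ≥0∞, ∀ ω, Ψ ω = min (sz S ω u) M := ⟨_, fun _ => rfl⟩
  have hΨm : Measurable Ψ := by
    have h1 : Ψ = fun ω => min (sz S ω u) (M : ℝ≥0∞) := funext hΨ
    rw [h1]
    exact (meas_sz S u).min measurable_const
  have key : ∫⁻ ω in evt S F H x, min (sz S ω u) M ∂(bP Γ p hp) =
      bP Γ p hp (evt S F H x) * ∫⁻ ω, Ψ (cl S H ω) ∂(bP Γ p hp) := by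
    rw [← lintegral_indicator hevm]
    have h1 : (evt S F H x).indicator (fun ω => min (sz S ω u) (M : ℝ≥0∞)) =
        fun ω => (evt S F H x).indicator (1 : Cfg Γ → ℝ≥0∞) (kp S H ω) * Ψ (cl S H ω) := by
      funext ω
      by_cases h : ω ∈ evt S F H x
      · rw [Set.indicator_of_mem h, Set.indicator_of_mem ((evt_kp hS F H ω x).1 h),
          Pi.one_apply, one_mul, hΨ]
        have h2 : sz S (cl S H ω) u = sz S ω u := by
          unfold sz
          rw [clus_cl hS H ω 1 u h.1 huH]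
        rw [h2]
      · rw [Set.indicator_of_notMem h,
          Set.indicator_of_notMem (fun h' => h ((evt_kp hS F H ω x).2 h')), zero_mul]
    rw [h1, ind_kp_cl p hp S H _ Ψ hΨm]
    congr 1
    have h2 : (fun ω => (evt S F H x).indicator (1 : Cfg Γ → ℝ≥0∞) (kp S H ω)) =
        (evt S F H x).indicator (1 : Cfg Γ → ℝ≥0∞) := by
      funext ω
      by_cases h : ω ∈ evt S F H x
      · rw [Set.indicator_of_mem h, Set.indicator_of_mem ((evt_kp hS F H ω x).1 h),
          Pi.one_apply, Pi.one_apply]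
      · rw [Set.indicator_of_notMem h,
          Set.indicator_of_notMem (fun h' => h ((evt_kp hS F H ω x).2 h'))]
    rw [h2, lintegral_indicator_one hevm]
  rw [key]
  refine mul_le_mul_right ?_ _
  have hoff := off_lemma hS p hp hfin H u huH M
  have hXM : XM S p hp M ≤ M := by
    unfold XM
    calc ∫⁻ ω, min (sz S ω 1) (M : ℝ≥0∞) ∂(bP Γ p hp)
        ≤ ∫⁻ _ω, (M : ℝ≥0∞) ∂(bP Γ p hp) := lintegral_mono fun ω => min_le_right _ _
      _ = M := by rw [lintegral_const, measure_univ, mul_one]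
  have hXt : XM S p hp M ≠ ⊤ := ne_top_of_le_ne_top (ENNReal.natCast_ne_top M) hXM
  have h3 : XM S p hp M ≤ ∫⁻ ω, Ψ (cl S H ω) ∂(bP Γ p hp) + XM S p hp M / 2 := by
    refine hoff.trans ?_
    simp only [hΨ]
    refine add_le_add le_rfl ?_
    rw [div_eq_mul_inv, mul_comm (XM S p hp M)]
    exact mul_le_mul_left hu _
  have h4 : XM S p hp M / 2 + XM S p hp M / 2 ≤
      ∫⁻ ω, Ψ (cl S H ω) ∂(bP Γ p hp) + XM S p hp M / 2 := by
    rw [ENNReal.add_halves]
    exact h3
  have h5 : XM S p hp M / 2 ≠ ⊤ := ENNReal.div_ne_top hXt (by norm_num)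
  exact (ENNReal.add_le_add_iff_right h5).1 h4

end Pool.Agent.IIC
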