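import Pool.Agent.IICG.Defs
import Pool.Agent.IIC.P_meas_clus

set_option autoImplicit false
set_option linter.unusedVariables false
set_option linter.unusedSectionVars false

/-!
# Zero density of the incipient infinite cluster: definitions

`Γ` is a group, `S` a finite set (symmetric, generating, in the theorem).  Bond percolation on the
Cayley graph `cay S` is modelled on configurations `Cfg Γ = Sym2 Γ → Bool`; only the bits at edges
of the Cayley graph are used.
-/

namespace Pool.Agent.IIC
open MeasureTheory ProbabilityTheory
open scoped ENNReal NNReal
variable {Γ : Type} [Group Γ]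


theorem meas_meets [Countable Γ] (S : Finset Γ) (F : Set Γ) (w : Γ) :
    MeasurableSet {ω : Cfg Γ | meets S F w ω} := by
  have h : {ω : Cfg Γ | meets S F w ω} = ⋃ f ∈ F, {ω : Cfg Γ | f ∈ clus S ω w} := by
    ext ω
    simp [meets]
  rw [h]
  exact MeasurableSet.biUnion F.to_countable (fun f _ => meas_clus S w f)

end Pool.Agent.IIC
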