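import Pool.Agent.IICG.Defs
import Pool.Agent.IIC.P_clus_mono
import Pool.Agent.IIC.P_clus_cl
import Pool.Agent.IIC.P_meas_cl
import Pool.Agent.IIC.P_ind_kp_cl
import Pool.Agent.IICG.P_meas_meets
import Pool.Agent.IICG.P_meas_trunk
import Pool.Agent.IICG.P_meas_clus_eq
import Pool.Agent.IICG.P_evt_kp

set_option autoImplicit false
set_option linter.unusedVariables false
set_option linter.unusedSectionVars false

/-!
# Zero density of the incipient infinite cluster: definitions

`Γ` is a group, `S` a finite set (symmetric, generating, in the theorem).  Bond percolation on the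
Cayley graph `cay S` is modelled on configurations `Cfg Γ = Sym2 Γ → Bool`; only the bits at edges
of the Cayley graph are used.
-/

namespace Pool.Agent.IIC
open MeasureTheory ProbabilityTheory
open scoped ENNReal NNReal
variable {Γ : Type} [Group Γ]


/-- conditionally on the cluster of `1` being `H`, other clusters rarely meet `F` -/
theorem evt_meets [Countable Γ] {S : Finset Γ} (hS : Symm S) (hg : Gen S) (p : ℝ≥0) (hp : p ≤ 1)
    (F : Set Γ) (H : Finset Γ) (x w : Γ) (hw : w ∉ H) :
    bP Γ p hp (evt S F H x ∩ {ω | meets S F w ω}) ≤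
      bP Γ p hp (evt S F H x) * bP Γ p hp {ω | meets S F w ω} := by
  classical
  set E : Set (Cfg Γ) := evt S F H x with hE
  set Mw : Set (Cfg Γ) := {ω | meets S F w ω} with hMw
  have hEm : MeasurableSet E := (meas_clus_eq S 1 H).inter (meas_trunk S F x)
  have hMm : MeasurableSet Mw := meas_meets S F w
  set Φ : Cfg Γ → ℝ≥0∞ := E.indicator (fun _ => 1) with hΦ
  set Ψ : Cfg Γ → ℝ≥0∞ := Mw.indicator (fun _ => 1) with hΨ
  have hΨm : Measurable Ψ := measurable_const.indicator hMm
  have hcl : ∀ ω : Cfg Γ, ∀ e, cl S H ω e = true → ω e = true := by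
    intro ω e he
    unfold cl at he
    split_ifs at he
    exact he
  have h1 : bP Γ p hp (E ∩ Mw) = ∫⁻ ω, Φ (kp S H ω) * Ψ (cl S H ω) ∂(bP Γ p hp) := by
    rw [← lintegral_indicator_one (hEm.inter hMm)]
    refine lintegral_congr fun ω => ?_
    have hk : Φ (kp S H ω) = Φ ω := by
      by_cases h : ω ∈ E
      · rw [hΦ, Set.indicator_of_mem h, Set.indicator_of_mem ((evt_kp hS F H ω x).mp h)]
      · rw [hΦ, Set.indicator_of_notMem h,
          Set.indicator_of_notMem (fun h' => h ((evt_kp hS F H ω x).mpr h'))]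
    rw [hk]
    by_cases h : ω ∈ E
    · have h2 : clus S (cl S H ω) w = clus S ω w := clus_cl hS H ω 1 w h.1 hw
      have h3 : cl S H ω ∈ Mw ↔ ω ∈ Mw := by
        simp only [hMw, Set.mem_setOf_eq, meets, h2]
      by_cases h4 : ω ∈ Mw
      · rw [Set.indicator_of_mem (show ω ∈ E ∩ Mw from ⟨h, h4⟩), hΦ, Set.indicator_of_mem h, hΨ,
          Set.indicator_of_mem (h3.mpr h4)]
        simp
      · rw [Set.indicator_of_notMem (fun h5 => h4 h5.2), hΨ,
          Set.indicator_of_notMem (fun h5 => h4 (h3.mp h5)), mul_zero]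
    · rw [Set.indicator_of_notMem (fun h5 => h h5.1), hΦ, Set.indicator_of_notMem h, zero_mul]
  have h2 : ∫⁻ ω, Φ (kp S H ω) ∂(bP Γ p hp) = bP Γ p hp E := by
    rw [← lintegral_indicator_one hEm]
    refine lintegral_congr fun ω => ?_
    by_cases h : ω ∈ E
    · rw [hΦ, Set.indicator_of_mem h, Set.indicator_of_mem ((evt_kp hS F H ω x).mp h)]
      rfl
    · rw [hΦ, Set.indicator_of_notMem h,
        Set.indicator_of_notMem (fun h' => h ((evt_kp hS F H ω x).mpr h'))]
  have h3 : ∫⁻ ω, Ψ (cl S H ω) ∂(bP Γ p hp) ≤ bP Γ p hp Mw := by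
    rw [← lintegral_indicator_one hMm]
    refine lintegral_mono fun ω => ?_
    by_cases h : cl S H ω ∈ Mw
    · have h4 : ω ∈ Mw := by
        obtain ⟨f, hf, hf2⟩ := h
        exact ⟨f, hf, clus_mono (hcl ω) w hf2⟩
      rw [hΨ, Set.indicator_of_mem h, Set.indicator_of_mem h4]
      exact le_rfl
    · rw [hΨ, Set.indicator_of_notMem h]
      exact zero_le
  rw [h1, ind_kp_cl p hp S H Φ Ψ hΨm, h2]
  gcongr

end Pool.Agent.IIC

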