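import Pool.Agent.IICG.Defs

set_option autoImplicit false
set_option linter.unusedVariables false
set_option linter.unusedSectionVars false

/-!
# Zero density of the incipient infinite cluster: definitions

`Γ` is a group, `S` a finite set (symmetric, generating, in the theorem).  Bond percolation on the
Cayley graph `cay S` is modelled on configurations `Cfg Γ = Sym2 Γ → Bool`; only the bits at edges
of the Cayley graph are used.
-/

namespace Pool.Agent.IIC
open MeasureTheory ProbabilityTheory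
open scoped ENNReal NNReal
variable {Γ : Type} [Group Γ]


/-- Markov: if the average of `a` over `range J` is at most `1/4`, at least half of the indices
have `a j ≤ 1/2` -/
theorem half_good (J : ℕ) (a : ℕ → ℝ≥0∞) (h : ∑ j ∈ Finset.range J, a j ≤ (J : ℝ≥0∞) / 4) :
    ∃ X ⊆ Finset.range J, J ≤ 2 * X.card ∧ ∀ j ∈ X, a j ≤ 2⁻¹ := by
  classical
  refine ⟨(Finset.range J).filter (fun j => a j ≤ 2⁻¹), Finset.filter_subset _ _, ?_,
    fun j hj => (Finset.mem_filter.1 hj).2⟩
  set X := (Finset.range J).filter (fun j => a j ≤ 2⁻¹) with hX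
  set Y := (Finset.range J).filter (fun j => ¬ a j ≤ 2⁻¹) with hY
  have hXY : X.card + Y.card = J := by
    rw [hX, hY, Finset.card_filter_add_card_filter_not, Finset.card_range]
  have h1 : (Y.card : ℝ≥0∞) * 2⁻¹ ≤ (J : ℝ≥0∞) / 4 := by
    calc (Y.card : ℝ≥0∞) * 2⁻¹ = ∑ j ∈ Y, (2⁻¹ : ℝ≥0∞) := by
          rw [Finset.sum_const, nsmul_eq_mul]
      _ ≤ ∑ j ∈ Y, a j := Finset.sum_le_sum fun j hj =>
          (not_le.1 (Finset.mem_filter.1 hj).2).le
      _ ≤ ∑ j ∈ Finset.range J, a j := Finset.sum_le_sum_of_subset (Finset.filter_subset _ _)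
      _ ≤ _ := h
  have hfin : (J : ℝ≥0∞) / 4 ≠ ⊤ := ENNReal.div_ne_top (ENNReal.natCast_ne_top J) (by norm_num)
  have h2 := ENNReal.toReal_mono hfin h1
  rw [ENNReal.toReal_mul, ENNReal.toReal_div, ENNReal.toReal_inv] at h2
  simp only [ENNReal.toReal_natCast, ENNReal.toReal_ofNat] at h2
  have h3 : (2 * Y.card : ℝ) ≤ J := by linarith
  have h4 : 2 * Y.card ≤ J := by exact_mod_cast h3
  omega
end Pool.Agent.IIC
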