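import Pool.Agent.IICG.Defs

set_option autoImplicit false
set_option linter.unusedVariables false
set_option linter.unusedSectionVars false

/-!
# Zero density of the incipient infinite cluster: definitions

`Γ` is a group, `S` a finite set (symmetric, generating, in the theorem).  Bond percolation on the
Cayley graph `cay S` is modelled on configurations `Cfg Γ = Sym2 Γ → Bool`; only the bits at edges
of the Cayley graph are used.
-/

namespace Pool.Agent.IIC
open MeasureTheory ProbabilityTheory
open scoped ENNReal NNReal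
variable {Γ : Type} [Group Γ]


theorem level_sum_geo (θ : ℝ) (hθ : 0 < θ) (A : Finset ℕ) (g : ℕ → ℕ)
    (hg : ∀ i ∈ A, ∀ j ∈ A, g i = g j → i = j) (h : ℕ → ℝ) (hh : ∀ j ∈ A, (g j : ℝ) ≤ h j) :
    ∑ j ∈ A, Real.exp (-θ * h j) ≤ 1 / (1 - Real.exp (-θ)) := by
  have hq0 : 0 ≤ Real.exp (-θ) := (Real.exp_pos _).le
  have hq1 : Real.exp (-θ) < 1 := by
    rw [Real.exp_lt_one_iff]
    linarith
  have h1 : ∀ j ∈ A, Real.exp (-θ * h j) ≤ Real.exp (-θ) ^ (g j) := by
    intro j hj
    rw [← Real.exp_nat_mul]
    apply Real.exp_le_exp.2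
    have := mul_le_mul_of_nonneg_left (hh j hj) hθ.le
    linarith
  calc ∑ j ∈ A, Real.exp (-θ * h j) ≤ ∑ j ∈ A, Real.exp (-θ) ^ (g j) := Finset.sum_le_sum h1
    _ = ∑ k ∈ A.image g, Real.exp (-θ) ^ k := by
        rw [Finset.sum_image]
        intro i hi j hj hij
        exact hg i hi j hj hij
    _ ≤ ∑' k : ℕ, Real.exp (-θ) ^ k :=
        (summable_geometric_of_lt_one hq0 hq1).sum_le_tsum _ (fun k _ => pow_nonneg hq0 k)
    _ = 1 / (1 - Real.exp (-θ)) := by rw [tsum_geometric_of_lt_one hq0 hq1, one_div]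

theorem level_sum (K θ b : ℝ) (hK : 0 ≤ K) (hθ : 0 < θ) (J : ℕ) (f : ℕ → ℝ)
    (hf : ∀ j < J, j * (K + 1) ≤ f j ∧ f j ≤ j * (K + 1) + K) :
    ∑ j ∈ Finset.range J, Real.exp (-θ * |f j - b|) ≤ 2 / (1 - Real.exp (-θ)) := by
  classical
  have hq1 : Real.exp (-θ) < 1 := by
    rw [Real.exp_lt_one_iff]
    linarith
  have hpos : 0 ≤ 1 / (1 - Real.exp (-θ)) := div_nonneg zero_le_one (by linarith)
  have key : ∀ i j : ℕ, j ≤ i → i < J → ((i - j : ℕ) : ℝ) ≤ f i - f j := by
    intro i j hji hi
    rcases hji.eq_or_lt with rfl | hlt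
    · simp
    · have h1 := (hf i hi).1
      have h2 := (hf j (hlt.trans hi)).2
      rw [Nat.cast_sub hji]
      have h3 : (j : ℝ) + 1 ≤ i := by exact_mod_cast hlt
      have h4 : 0 ≤ K * ((i : ℝ) - (j + 1)) := mul_nonneg hK (by linarith)
      nlinarith
  have hA : ∑ j ∈ (Finset.range J).filter (fun j => f j ≤ b), Real.exp (-θ * |f j - b|) ≤
      1 / (1 - Real.exp (-θ)) := by
    rcases ((Finset.range J).filter (fun j => f j ≤ b)).eq_empty_or_nonempty with he | hne
    · rw [he, Finset.sum_empty]
      exact hpos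
    · set m := ((Finset.range J).filter (fun j => f j ≤ b)).max' hne with hm
      have hm1 := Finset.max'_mem _ hne
      rw [← hm, Finset.mem_filter, Finset.mem_range] at hm1
      refine level_sum_geo θ hθ _ (fun j => m - j) ?_ _ ?_
      · intro i hi j hj hij
        have h1 := Finset.le_max' _ i hi
        have h2 := Finset.le_max' _ j hj
        rw [← hm] at h1 h2
        omega
      · intro j hj
        have h2 := Finset.le_max' _ j hj
        rw [← hm] at h2
        have h3 := key m j h2 hm1.1
        have h4 : b - f j ≤ |f j - b| := by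
          rw [abs_sub_comm]
          exact le_abs_self _
        linarith [hm1.2]
  have hB : ∑ j ∈ (Finset.range J).filter (fun j => ¬ f j ≤ b), Real.exp (-θ * |f j - b|) ≤
      1 / (1 - Real.exp (-θ)) := by
    rcases ((Finset.range J).filter (fun j => ¬ f j ≤ b)).eq_empty_or_nonempty with he | hne
    · rw [he, Finset.sum_empty]
      exact hpos
    · set m := ((Finset.range J).filter (fun j => ¬ f j ≤ b)).min' hne with hm
      have hm1 := Finset.min'_mem _ hne
      rw [← hm, Finset.mem_filter, Finset.mem_range, not_le] at hm1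
      refine level_sum_geo θ hθ _ (fun j => j - m) ?_ _ ?_
      · intro i hi j hj hij
        have h1 := Finset.min'_le _ i hi
        have h2 := Finset.min'_le _ j hj
        rw [← hm] at h1 h2
        omega
      · intro j hj
        have h2 := Finset.min'_le _ j hj
        rw [← hm] at h2
        have hj' := (Finset.mem_filter.1 hj).1
        rw [Finset.mem_range] at hj'
        have h3 := key j m h2 hj'
        have h4 : f j - b ≤ |f j - b| := le_abs_self _
        linarith [hm1.2]
  rw [← Finset.sum_filter_add_sum_filter_not (Finset.range J) (fun j => f j ≤ b)]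
  calc _ ≤ 1 / (1 - Real.exp (-θ)) + 1 / (1 - Real.exp (-θ)) := add_le_add hA hB
    _ = 2 / (1 - Real.exp (-θ)) := by ring

end Pool.Agent.IIC
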