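import Pool.Agent.IICG.Defs
import Pool.Agent.IIC.P_tau_le_Z
import Pool.Agent.IIC.P_tau_pos

set_option autoImplicit false
set_option linter.unusedVariables false
set_option linter.unusedSectionVars false

/-!
# Zero density of the incipient infinite cluster: definitions

`Γ` is a group, `S` a finite set (symmetric, generating, in the theorem).  Bond percolation on the
Cayley graph `cay S` is modelled on configurations `Cfg Γ = Sym2 Γ → Bool`; only the bits at edges
of the Cayley graph are used.
-/

namespace Pool.Agent.IIC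
open MeasureTheory ProbabilityTheory
open scoped ENNReal NNReal
variable {Γ : Type} [Group Γ]


/-- far vertices have large potential -/
theorem pot_far [Countable Γ] {S : Finset Γ} (hS : Symm S) (hg : Gen S) (p : ℝ≥0) (hp : p ≤ 1)
    (hp0 : 0 < p) (n : ℕ) (c : ℝ) (hZ : Z S p hp n ≤ ENNReal.ofReal (Real.exp (-c * n))) (y : Γ)
    (hy : y ∈ far S n) : c * n ≤ pot S p hp y := by
  have h1 : tau S p hp 1 y ≤ ENNReal.ofReal (Real.exp (-c * n)) := (tau_le_Z p hp n y hy).trans hZ
  have h2 : (tau S p hp 1 y).toReal ≤ Real.exp (-c * n) :=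
    ENNReal.toReal_le_of_le_ofReal (Real.exp_pos _).le h1
  have h3 : tau S p hp 1 y ≠ ⊤ := ne_top_of_le_ne_top ENNReal.ofReal_ne_top h1
  have h4 : 0 < (tau S p hp 1 y).toReal :=
    ENNReal.toReal_pos (tau_pos hS hg p hp hp0 1 y).ne' h3
  have h5 : Real.log (tau S p hp 1 y).toReal ≤ -c * n := by
    rw [← Real.log_exp (-c * n)]
    exact Real.log_le_log h4 h2
  unfold pot
  linarith

end Pool.Agent.IIC
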