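import Pool.Agent.IICG.Defs
import Pool.Agent.IIC.P_tau_one

set_option autoImplicit false
set_option linter.unusedVariables false
set_option linter.unusedSectionVars false

/-!
# Zero density of the incipient infinite cluster: definitions

`Γ` is a group, `S` a finite set (symmetric, generating, in the theorem).  Bond percolation on the
Cayley graph `cay S` is modelled on configurations `Cfg Γ = Sym2 Γ → Bool`; only the bits at edges
of the Cayley graph are used.
-/

namespace Pool.Agent.IIC
open MeasureTheory ProbabilityTheory
open scoped ENNReal NNReal
variable {Γ : Type} [Group Γ]


theorem pot_one {S : Finset Γ} (p : ℝ≥0) (hp : p ≤ 1) : pot S p hp 1 = 0 := by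
  unfold pot
  rw [tau_one, ENNReal.toReal_one, Real.log_one, neg_zero]

end Pool.Agent.IIC
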