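import Pool.Agent.IICG.Defs

set_option autoImplicit false
set_option linter.unusedVariables false
set_option linter.unusedSectionVars false

/-!
# Zero density of the incipient infinite cluster: definitions

`Γ` is a group, `S` a finite set (symmetric, generating, in the theorem).  Bond percolation on the
Cayley graph `cay S` is modelled on configurations `Cfg Γ = Sym2 Γ → Bool`; only the bits at edges
of the Cayley graph are used.
-/

namespace Pool.Agent.IIC
open MeasureTheory ProbabilityTheory
open scoped ENNReal NNReal
variable {Γ : Type} [Group Γ]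


/-- discrete intermediate value theorem along a walk -/
theorem walk_level {V : Type} {G : SimpleGraph V} (φ : V → ℝ) (K : ℝ)
    (hK : ∀ a b, G.Adj a b → |φ a - φ b| ≤ K) {x z : V} (w : G.Walk x z) (a : ℝ)
    (hx : φ x ≤ a) (hz : a ≤ φ z) (hK0 : 0 ≤ K) : ∃ v ∈ w.support, a ≤ φ v ∧ φ v ≤ a + K := by
  induction w with
  | nil =>
    refine ⟨_, by simp, hz, by linarith⟩
  | cons h w' ih =>
    rename_i x c z
    by_cases hc : φ c ≤ a
    · obtain ⟨v, hv, h1, h2⟩ := ih hc hz
      exact ⟨v, by simp [hv], h1, h2⟩
    · push Not at hc
      refine ⟨c, by simp, hc.le, ?_⟩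
      have h1 := hK x c h
      have h2 := abs_le.1 h1
      linarith [h2.1]

end Pool.Agent.IIC
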