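import Pool.Agent.IICG.Defs
import Pool.Agent.IIC.P_cay_conn
import Pool.Agent.IIC.P_avg_sum
import Pool.Agent.IICG.P_pot_one
import Pool.Agent.IICG.P_pot_adj
import Pool.Agent.IICG.P_pot_far
import Pool.Agent.IICG.P_avg_exists_dist
import Pool.Agent.IICG.P_avg_tau_le
import Pool.Agent.IICG.P_walk_level
import Pool.Agent.IICG.P_level_sum
import Pool.Agent.IICG.P_half_good

set_option autoImplicit false
set_option linter.unusedVariables false
set_option linter.unusedSectionVars false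

/-!
# Zero density of the incipient infinite cluster: definitions

`Γ` is a group, `S` a finite set (symmetric, generating, in the theorem).  Bond percolation on the
Cayley graph `cay S` is modelled on configurations `Cfg Γ = Sym2 Γ → Bool`; only the bits at edges
of the Cayley graph are used.
-/

namespace Pool.Agent.IIC
open MeasureTheory ProbabilityTheory
open scoped ENNReal NNReal
variable {Γ : Type} [Group Γ]


theorem gl_walk [Countable Γ] {S : Finset Γ} (hS : Symm S) (hg : Gen S)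
    (p : ℝ≥0) (hp : p ≤ 1) (hp0 : 0 < p) (ω : Cfg Γ) {z : Γ} (w : (opn S ω).Walk 1 z)
    (hK : 0 ≤ -Real.log p) (a : ℝ) (ha : 0 ≤ a) (hz : a ≤ pot S p hp z) :
    ∃ v ∈ w.support, a ≤ pot S p hp v ∧ pot S p hp v ≤ a + -Real.log p := by
  refine walk_level (pot S p hp) (-Real.log p) ?_ w a ?_ hz hK
  · intro x y hxy
    exact pot_adj hS hg p hp hp0 x y hxy.1
  · rw [pot_one]
    exact ha

theorem gl_num (q B c K : ℝ) (A n J : ℕ) (hK : 0 < K)
    (hq : q * (A * B) ≤ c / (16 * (K + 1))) (hJ : c * n / (4 * (K + 1)) ≤ J) :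
    (A * n : ℕ) * (q * B) ≤ (J : ℝ) / 4 := by
  have h1 : ((A * n : ℕ) : ℝ) * (q * B) = n * (q * (A * B)) := by
    push_cast
    ring
  rw [h1]
  have h2 : (n : ℝ) * (q * (A * B)) ≤ n * (c / (16 * (K + 1))) :=
    mul_le_mul_of_nonneg_left hq (Nat.cast_nonneg n)
  have h3 : (n : ℝ) * (c / (16 * (K + 1))) = (c * n / (4 * (K + 1))) / 4 := by
    have : K + 1 ≠ 0 := by positivity
    field_simp
    ring
  rw [h3] at h2
  linarith

/-- in a thin cluster many trunk vertices are good -/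
theorem good_levels [Countable Γ] {S : Finset Γ} (hS : Symm S) (hg : Gen S) (hne : S.Nonempty)
    (p : ℝ≥0) (hp : p ≤ 1) (hp0 : 0 < p) (hp1 : p < 1) (ρ : ℝ≥0) (hρ0 : 0 < ρ) (hρ1 : ρ < 1)
    (hspec : ∀ (k : ℕ) (h x : Γ), avg S k (fun u => tau S p hp u x) h ≤ (ρ : ℝ≥0∞) ^ k)
    (A : ℕ) (c : ℝ) (hc : 0 < c) :
    ∃ (t : ℕ) (c2 : ℝ) (n0 : ℕ), 0 < c2 ∧ ∀ n, n0 ≤ n →
      Z S p hp n ≤ ENNReal.ofReal (Real.exp (-c * n)) →
      ∀ (ω : Cfg Γ) (H : Finset Γ), clus S ω 1 = ↑H → H.card ≤ A * n → meets S (far S n) 1 ω →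
        ∃ X : Finset Γ, c2 * n ≤ X.card ∧ ∀ x ∈ X, x ∈ trunk S (far S n) ω ∧
          pot S p hp x ≤ c * n / 2 ∧
          ∃ u, (cay S).dist x u ≤ t ∧ ∑ y ∈ H, tau S p hp u y ≤ 2⁻¹ := by
  obtain ⟨θ, r, hθ, hr0, hr1, hbound⟩ := avg_tau_le hS hg hne p hp hp0 hp1 ρ hρ0 hρ1 hspec
  obtain ⟨K, hKdef⟩ : ∃ K : ℝ, K = -Real.log p := ⟨_, rfl⟩
  have hp0' : (0 : ℝ) < p := by exact_mod_cast hp0
  have hp1' : (p : ℝ) < 1 := by exact_mod_cast hp1
  have hK : 0 < K := by
    rw [hKdef]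
    have := Real.log_neg hp0' hp1'
    linarith
  obtain ⟨B, hB⟩ : ∃ B : ℝ, B = 2 / (1 - Real.exp (-θ)) := ⟨_, rfl⟩
  have hexp : Real.exp (-θ) < 1 := by
    rw [Real.exp_lt_one_iff]
    linarith
  have hBpos : 0 < B := by
    rw [hB]
    apply div_pos two_pos
    linarith
  have hAB : 0 ≤ (A : ℝ) * B := by positivity
  have hABpos : 0 < (A : ℝ) * B + 1 := by positivity
  have hcK : 0 < c / (16 * (K + 1)) := by positivity
  obtain ⟨t, ht⟩ := exists_pow_lt_of_lt_one (div_pos hcK hABpos) hr1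
  have hq : r ^ t * (A * B) ≤ c / (16 * (K + 1)) := by
    rw [lt_div_iff₀ hABpos] at ht
    have h1 : r ^ t * (A * B) ≤ r ^ t * ((A : ℝ) * B + 1) := by
      apply mul_le_mul_of_nonneg_left _ (by positivity)
      linarith
    linarith
  refine ⟨t, c / (8 * (K + 1)), ⌈4 * (K + 1) / c⌉₊ + 1, by positivity, ?_⟩
  intro n hn hZ ω H hH hcard hmeet
  have hn' : 4 * (K + 1) / c ≤ n := by
    have h1 : 4 * (K + 1) / c ≤ ⌈4 * (K + 1) / c⌉₊ := Nat.le_ceil _
    have h2 : (⌈4 * (K + 1) / c⌉₊ : ℝ) ≤ n := by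
      exact_mod_cast (le_trans (Nat.le_succ _) hn)
    linarith
  have hcn : 4 * (K + 1) ≤ c * n := by
    rw [div_le_iff₀ hc] at hn'
    linarith
  obtain ⟨J, hJdef⟩ : ∃ J : ℕ, J = ⌊c * n / (2 * (K + 1))⌋₊ := ⟨_, rfl⟩
  have hJ1 : (J : ℝ) ≤ c * n / (2 * (K + 1)) := by
    rw [hJdef]
    exact Nat.floor_le (by positivity)
  have hJ2 : c * n / (4 * (K + 1)) ≤ J := by
    have h1 : c * n / (2 * (K + 1)) < J + 1 := by
      rw [hJdef]
      exact Nat.lt_floor_add_one _
    have h2 : c * n / (2 * (K + 1)) = 2 * (c * n / (4 * (K + 1))) := by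
      field_simp
      ring
    have h3 : 1 ≤ c * n / (4 * (K + 1)) := by
      rw [le_div_iff₀ (by positivity)]
      linarith
    rw [h2] at h1
    linarith
  have hJ3 : (J : ℝ) * (K + 1) ≤ c * n / 2 := by
    rw [le_div_iff₀ (by positivity)] at hJ1
    linarith
  obtain ⟨z, hzfar, hzc⟩ := hmeet
  obtain ⟨w, hw⟩ := SimpleGraph.Reachable.exists_isPath hzc
  have hpz : c * n ≤ pot S p hp z := pot_far hS hg p hp hp0 n c hZ z hzfar
  have hcn0 : 0 ≤ c * n := by positivity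
  have hex : ∀ j : ℕ, ∃ v : Γ, j < J → v ∈ w.support ∧ (j : ℝ) * (K + 1) ≤ pot S p hp v ∧
      pot S p hp v ≤ j * (K + 1) + K := by
    intro j
    by_cases hj : j < J
    · have hj' : (j : ℝ) ≤ J := by exact_mod_cast hj.le
      have h1 : (j : ℝ) * (K + 1) ≤ pot S p hp z := by
        have : (j : ℝ) * (K + 1) ≤ J * (K + 1) := mul_le_mul_of_nonneg_right hj' (by positivity)
        linarith
      have h2 : 0 ≤ -Real.log p := by
        rw [← hKdef]
        exact hK.le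
      obtain ⟨v, hv, hv1, hv2⟩ := gl_walk hS hg p hp hp0 ω w h2 ((j : ℝ) * (K + 1))
        (by positivity) h1
      rw [← hKdef] at hv2
      exact ⟨v, fun _ => ⟨hv, hv1, hv2⟩⟩
    · exact ⟨1, fun h => absurd h hj⟩
  choose h hh using hex
  have hlev : ∀ y : Γ, ∑ j ∈ Finset.range J, Real.exp (-θ * |pot S p hp (h j) - pot S p hp y|)
      ≤ B := by
    intro y
    rw [hB]
    exact level_sum K θ (pot S p hp y) hK.le hθ J (fun j => pot S p hp (h j))
      (fun j hj => (hh j hj).2)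
  obtain ⟨a, ha⟩ : ∃ a : ℕ → ℝ≥0∞, a = fun j =>
      avg S t (fun u => ∑ y ∈ H, tau S p hp u y) (h j) := ⟨_, rfl⟩
  have hsum : ∑ j ∈ Finset.range J, a j ≤ (J : ℝ≥0∞) / 4 := by
    have h1 : ∀ j, a j ≤ ∑ y ∈ H, ENNReal.ofReal
        (r ^ t * Real.exp (-θ * |pot S p hp (h j) - pot S p hp y|)) := by
      intro j
      rw [ha]
      show avg S t (fun u => ∑ y ∈ H, tau S p hp u y) (h j) ≤ _
      rw [avg_sum S t H (fun y u => tau S p hp u y) (h j)]
      exact Finset.sum_le_sum fun y _ => hbound t (h j) y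
    calc ∑ j ∈ Finset.range J, a j
        ≤ ∑ j ∈ Finset.range J, ∑ y ∈ H, ENNReal.ofReal
          (r ^ t * Real.exp (-θ * |pot S p hp (h j) - pot S p hp y|)) :=
          Finset.sum_le_sum fun j _ => h1 j
      _ = ∑ y ∈ H, ∑ j ∈ Finset.range J, ENNReal.ofReal
          (r ^ t * Real.exp (-θ * |pot S p hp (h j) - pot S p hp y|)) := Finset.sum_comm
      _ = ∑ y ∈ H, ENNReal.ofReal (∑ j ∈ Finset.range J,
          (r ^ t * Real.exp (-θ * |pot S p hp (h j) - pot S p hp y|))) := by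
          refine Finset.sum_congr rfl fun y _ => ?_
          rw [ENNReal.ofReal_sum_of_nonneg]
          intro j _
          positivity
      _ ≤ ∑ y ∈ H, ENNReal.ofReal (r ^ t * B) := by
          refine Finset.sum_le_sum fun y _ => ENNReal.ofReal_le_ofReal ?_
          rw [← Finset.mul_sum]
          exact mul_le_mul_of_nonneg_left (hlev y) (by positivity)
      _ = (H.card : ℝ≥0∞) * ENNReal.ofReal (r ^ t * B) := by
          rw [Finset.sum_const, nsmul_eq_mul]
      _ ≤ ((A * n : ℕ) : ℝ≥0∞) * ENNReal.ofReal (r ^ t * B) := by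
          gcongr
      _ = ENNReal.ofReal ((A * n : ℕ) * (r ^ t * B)) := by
          rw [ENNReal.ofReal_mul (p := ((A * n : ℕ) : ℝ)) (Nat.cast_nonneg _),
            ENNReal.ofReal_natCast]
      _ ≤ ENNReal.ofReal ((J : ℝ) / 4) :=
          ENNReal.ofReal_le_ofReal (gl_num (r ^ t) B c K A n J hK hq hJ2)
      _ = (J : ℝ≥0∞) / 4 := by
          rw [ENNReal.ofReal_div_of_pos (by norm_num), ENNReal.ofReal_natCast]
          norm_num
  obtain ⟨X0, hX0, hX0c, hX0a⟩ := half_good J a hsum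
  have hlt : ∀ i ∈ X0, ∀ j ∈ X0, i < j → h i ≠ h j := by
    intro i hi j hj hij heq
    have hiJ := Finset.mem_range.1 (hX0 hi)
    have hjJ := Finset.mem_range.1 (hX0 hj)
    have h1 := (hh i hiJ).2.2
    have h2 := (hh j hjJ).2.1
    rw [heq] at h1
    have h3 : (i : ℝ) + 1 ≤ j := by exact_mod_cast hij
    have h4 : ((i : ℝ) + 1) * (K + 1) ≤ j * (K + 1) :=
      mul_le_mul_of_nonneg_right h3 (by positivity)
    linarith
  classical
  refine ⟨X0.image h, ?_, ?_⟩
  · rw [Finset.card_image_of_injOn]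
    · have h1 : (J : ℝ) ≤ 2 * X0.card := by exact_mod_cast hX0c
      have h2 : c / (8 * (K + 1)) * n = (c * n / (4 * (K + 1))) / 2 := by
        field_simp
        ring
      rw [h2]
      linarith
    · intro i hi j hj heq
      rcases lt_trichotomy i j with h1 | h1 | h1
      · exact absurd heq (hlt i hi j hj h1)
      · exact h1
      · exact absurd heq.symm (hlt j hj i hi h1)
  · intro x hx
    obtain ⟨j, hj, rfl⟩ := Finset.mem_image.1 hx
    have hjJ := Finset.mem_range.1 (hX0 hj)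
    obtain ⟨hs, hl, hu⟩ := hh j hjJ
    refine ⟨⟨z, hzfar, w, hw.isTrail, hs⟩, ?_, ?_⟩
    · have h3 : (j : ℝ) + 1 ≤ J := by exact_mod_cast hjJ
      have h4 : ((j : ℝ) + 1) * (K + 1) ≤ J * (K + 1) :=
        mul_le_mul_of_nonneg_right h3 (by positivity)
      linarith
    · obtain ⟨u, hu1, hu2⟩ := avg_exists_dist hS hg hne t
        (fun u => ∑ y ∈ H, tau S p hp u y) (h j)
      refine ⟨u, hu1, hu2.trans ?_⟩
      have := hX0a j hj
      rw [ha] at this
      exact this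

end Pool.Agent.IIC
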