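import Pool.Agent.IICG.Defs
import Pool.Agent.IIC.P_clus_mono
import Pool.Agent.IIC.P_meas_clus
import Pool.Agent.IIC.P_harris
import Pool.Agent.IICG.P_meas_meets

set_option autoImplicit false
set_option linter.unusedVariables false
set_option linter.unusedSectionVars false

/-!
# Zero density of the incipient infinite cluster: definitions

`Γ` is a group, `S` a finite set (symmetric, generating, in the theorem).  Bond percolation on the
Cayley graph `cay S` is modelled on configurations `Cfg Γ = Sym2 Γ → Bool`; only the bits at edges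
of the Cayley graph are used.
-/

namespace Pool.Agent.IIC
open MeasureTheory ProbabilityTheory
open scoped ENNReal NNReal
variable {Γ : Type} [Group Γ]


theorem harris_meets [Countable Γ] {S : Finset Γ} (p : ℝ≥0) (hp : p ≤ 1) (F : Set Γ) (w : Γ) :
    tau S p hp 1 w * bP Γ p hp {ω | meets S F w ω} ≤ bP Γ p hp {ω | meets S F 1 ω} := by
  have hc : Countable (Sym2 Γ) := by
    unfold Sym2
    infer_instance
  have h1 := harris (Sym2 Γ) p hp {ω : Cfg Γ | w ∈ clus S ω 1} {ω : Cfg Γ | meets S F w ω}
    (meas_clus S 1 w) (meas_meets S F w)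
    (fun ω ω' h hω => clus_mono h 1 hω)
    (by
      rintro ω ω' h ⟨f, hf, hfc⟩
      exact ⟨f, hf, clus_mono h w hfc⟩)
  refine le_trans h1 (measure_mono ?_)
  rintro ω ⟨hw, f, hf, hfc⟩
  exact ⟨f, hf, SimpleGraph.Reachable.trans hw hfc⟩

end Pool.Agent.IIC
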