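import Pool.Agent.IICG.Defs
import Pool.Agent.IIC.P_meas_opn
import Pool.Agent.IIC.P_meas_clus
import Pool.Agent.IIC.P_meas_upd
import Pool.Agent.IICG.P_meas_trunk
import Pool.Agent.IICG.P_Beyond_eq

set_option autoImplicit false
set_option linter.unusedVariables false
set_option linter.unusedSectionVars false

/-!
# Zero density of the incipient infinite cluster: definitions

`Γ` is a group, `S` a finite set (symmetric, generating, in the theorem).  Bond percolation on the
Cayley graph `cay S` is modelled on configurations `Cfg Γ = Sym2 Γ → Bool`; only the bits at edges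
of the Cayley graph are used.
-/

namespace Pool.Agent.IIC
open MeasureTheory ProbabilityTheory
open scoped ENNReal NNReal
variable {Γ : Type} [Group Γ]


theorem meas_beyond671 [Countable Γ] (S : Finset Γ) (g y v : Γ) :
    MeasurableSet {ω : Cfg Γ | v ∈ Beyond (opn S ω) g y} := by
  have h := (meas_clus S y v).preimage (meas_upd (Γ := Γ) s(g, y) false)
  have e : {ω : Cfg Γ | v ∈ Beyond (opn S ω) g y} =
      (fun ω : Cfg Γ => upd ω s(g, y) false) ⁻¹' {ω : Cfg Γ | v ∈ clus S ω y} := by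
    ext ω
    simp only [Set.mem_setOf_eq, Set.mem_preimage]
    rw [Beyond_eq]
  rw [e]
  exact h

theorem meas_deadEnd [Countable Γ] (S : Finset Γ) (F : Set Γ) (g y : Γ) :
    MeasurableSet {ω : Cfg Γ | DeadEnd (opn S ω) 1 F g y} := by
  have e : {ω : Cfg Γ | DeadEnd (opn S ω) 1 F g y} =
      {ω : Cfg Γ | (opn S ω).Adj g y} ∩ {ω : Cfg Γ | g ∈ Beyond (opn S ω) g y}ᶜ ∩
        {ω : Cfg Γ | (1 : Γ) ∈ Beyond (opn S ω) g y}ᶜ ∩
        (⋂ t ∈ F, {ω : Cfg Γ | t ∈ Beyond (opn S ω) g y}ᶜ) ∩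
        {ω : Cfg Γ | g ∈ trunk S F ω} := by
    ext ω
    simp only [Set.mem_setOf_eq, Set.mem_inter_iff, Set.mem_compl_iff, Set.mem_iInter]
    constructor
    · rintro ⟨h1, h2, h3, h4, h5⟩
      exact ⟨⟨⟨⟨h1, h2⟩, h3⟩, h4⟩, h5⟩
    · rintro ⟨⟨⟨⟨h1, h2⟩, h3⟩, h4⟩, h5⟩
      exact ⟨h1, h2, h3, h4, h5⟩
  rw [e]
  refine ((((meas_opn S g y).inter (meas_beyond671 S g y g).compl).inter
    (meas_beyond671 S g y 1).compl).inter ?_).inter (meas_trunk S F g)
  exact MeasurableSet.biInter (Set.to_countable F) fun t _ => (meas_beyond671 S g y t).compl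

end Pool.Agent.IIC
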