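import Pool.Agent.IICG.Defs
import Pool.Agent.IIC.P_meas_sz
import Pool.Agent.IIC.P_meas_upd
import Pool.Agent.IICG.P_Beyond_eq
import Pool.Agent.IICG.P_meas_deadEnd

set_option autoImplicit false
set_option linter.unusedVariables false
set_option linter.unusedSectionVars false

/-!
# Zero density of the incipient infinite cluster: definitions

`Γ` is a group, `S` a finite set (symmetric, generating, in the theorem).  Bond percolation on the
Cayley graph `cay S` is modelled on configurations `Cfg Γ = Sym2 Γ → Bool`; only the bits at edges
of the Cayley graph are used.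
-/

namespace Pool.Agent.IIC
open MeasureTheory ProbabilityTheory
open scoped ENNReal NNReal
variable {Γ : Type} [Group Γ]


theorem meas_gx [Countable Γ] (S : Finset Γ) (F : Set Γ) (t : ℕ) (x : Γ) :
    Measurable (gx S F t x) := by
  unfold gx
  refine Finset.measurable_fun_sum _ (fun g _ => Finset.measurable_fun_sum _ (fun s _ => ?_))
  refine Measurable.indicator ?_ (meas_deadEnd S F g (g * s))
  have e : (fun ω : Cfg Γ => ((Beyond (opn S ω) g (g * s)).encard : ℝ≥0∞) / sz S ω 1) =
      fun ω : Cfg Γ => sz S (upd ω s(g, g * s) false) (g * s) / sz S ω 1 := by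
    funext ω
    rw [Beyond_eq]
    rfl
  rw [e]
  exact ((meas_sz S (g * s)).comp (meas_upd s(g, g * s) false)).div (meas_sz S 1)

end Pool.Agent.IIC
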