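import Pool.Agent.IICG.Surgery
import Pool.Agent.IIC.AB

set_option autoImplicit false
set_option linter.unusedVariables false
set_option linter.unusedSectionVars false

namespace Pool.Agent.IIC

open MeasureTheory ProbabilityTheory
open scoped ENNReal NNReal

variable {Γ : Type} [Group Γ]

theorem opn_le_cay (S : Finset Γ) (ω : Cfg Γ) : opn S ω ≤ cay S := fun _ _ h => h.1

theorem surgery_gx {S : Finset Γ} (hS : Symm S) (hg : Gen S) (F : Set Γ) (t M : ℕ) (x u : Γ)
    (ω : Cfg Γ) (H : Finset Γ) (hH : clus S ω 1 = ↑H) (hx : x ∈ trunk S F ω)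
    (hu : (cay S).dist x u ≤ t) (huH : u ∉ H) (hball : ∀ w ∈ ball S x t, w ∉ F)
    (hB : ∀ w ∈ ball S x t, w ∉ H → ¬ meets S F w ω)
    (hfin : ∀ w, (clus S ω w).Finite) :
    ∃ A ∈ (T S (ball S x t)).powerset,
      min (sz S ω u) M / (H.card + M : ℕ) ≤ gx S F t x (pat S t x A ω) := by
  classical
  obtain ⟨z, hz, γ, hγ, hxγ⟩ := hx
  obtain ⟨q, hq⟩ := (cay_conn hS hg).exists_walk_length_eq_dist x u
  have hqball : ∀ v ∈ q.support, v ∈ ball S x t := by
    intro v hv
    rw [mem_ball hS hg]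
    calc (cay S).dist x v ≤ (q.takeUntil v hv).length := SimpleGraph.dist_le _
      _ ≤ q.length := q.length_takeUntil_le_length hv
      _ ≤ t := by rw [hq]; exact hu
  have hγH : ∀ v ∈ γ.support, v ∈ H := by
    intro v hv
    have : v ∈ clus S ω 1 := ⟨γ.takeUntil v hv⟩
    rw [hH] at this
    exact this
  obtain ⟨g, y, hgy, q2, h1, h2, h3, h4⟩ := last_visit {v | v ∈ γ.support} q
    ⟨x, q.start_mem_support, hxγ⟩ (fun h => huH (hγH u h))
  let d : SurgData (cay S) (opn S ω) 1 (↑H) g y u :=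
    { hH := hH.symm, z := z, γ := γ, htrail := hγ, hg := h1, hgy := hgy, q := q2, hq := h2,
      hu := by simpa using huH }
  have hWball : ∀ v ∈ d.W, v ∈ ball S x t := fun v hv => hqball v (h4 v hv)
  have hgball : g ∈ ball S x t := hqball g h3
  -- the pattern
  let A := (T S (ball S x t)).filter (fun e => e ∈ d.G1.edgeSet)
  have hG1 : ∀ a b, d.G1.Adj a b → (cay S).Adj a b := by
    intro a b hab
    obtain ⟨hne, ⟨h, -, -⟩ | h | h⟩ := hab
    · exact h.1
    · exact d.q.adj_of_mem_edges h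
    · rw [Sym2.eq_iff] at h
      rcases h with ⟨rfl, rfl⟩ | ⟨rfl, rfl⟩
      · exact hgy
      · exact hgy.symm
  have hopn : opn S (pat S t x A ω) = d.G1 := by
    ext a b
    have hmemT : s(a, b) ∈ T S (ball S x t) ↔ (cay S).Adj a b ∧ (a ∈ ball S x t ∨ b ∈ ball S x t) := by
      rw [mem_T hS]
      simp
    constructor
    · rintro ⟨hab, hv⟩
      by_cases hT : s(a, b) ∈ T S (ball S x t)
      · simp only [pat, ovr, hT, if_true, decide_eq_true_eq] at hv
        exact (Finset.mem_filter.1 hv).2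
      · simp only [pat, ovr, hT, if_false] at hv
        have hnb : a ∉ ball S x t ∧ b ∉ ball S x t := by
          rw [hmemT] at hT
          push Not at hT
          exact hT hab
        refine ⟨hab.ne, Or.inl ⟨⟨hab, hv⟩, ?_, ?_⟩⟩
        · rintro ⟨h, -⟩; exact hnb.1 (hWball a h)
        · rintro ⟨h, -⟩; exact hnb.2 (hWball b h)
    · intro hab
      refine ⟨hG1 a b hab, ?_⟩
      by_cases hT : s(a, b) ∈ T S (ball S x t)
      · simp only [pat, ovr, hT, if_true, decide_eq_true_eq]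
        exact Finset.mem_filter.2 ⟨hT, hab⟩
      · simp only [pat, ovr, hT, if_false]
        have hnb : a ∉ ball S x t ∧ b ∉ ball S x t := by
          rw [hmemT] at hT
          push Not at hT
          exact hT (hG1 a b hab)
        obtain ⟨hne, ⟨h, -, -⟩ | h | h⟩ := hab
        · exact h.2
        · exact absurd (hWball a (d.q.fst_mem_support_of_mem_edges h)) hnb.1
        · rw [Sym2.eq_iff] at h
          rcases h with ⟨rfl, rfl⟩ | ⟨rfl, rfl⟩
          · exact absurd hgball hnb.1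
          · exact absurd hgball hnb.2
  have hdead : DeadEnd (opn S (pat S t x A ω)) 1 F g y := by
    rw [hopn]
    refine d.deadEnd F hz (fun w hw => hball w (hWball w hw)) ?_
    intro w hw hwH v hv hr
    exact hB w (hWball w hw) (by simpa using hwH) ⟨v, hv, hr⟩
  refine ⟨A, Finset.mem_powerset.2 (Finset.filter_subset _ _), ?_⟩
  have hs : g⁻¹ * y ∈ S := ((cay_adj hS g y).1 hgy).2
  -- sizes
  have hBfin : (Beyond d.G1 g y).Finite := by
    refine Set.Finite.subset ?_ d.Beyond_sub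
    refine Set.Finite.union (List.finite_toSet _) ?_
    refine Set.Finite.subset (Set.Finite.biUnion (List.finite_toSet d.q.support)
      (fun w _ => hfin w)) ?_
    rintro v ⟨w, hw, -, hr⟩
    exact Set.mem_biUnion hw hr
  have hsz1 : sz S ω u ≤ ((Beyond d.G1 g y).encard : ℝ≥0∞) := by
    unfold sz
    have : clus S ω u ⊆ Beyond d.G1 g y := fun v hv => d.cluster_sub hv
    exact_mod_cast Set.encard_le_encard this
  have hsz2 : sz S (pat S t x A ω) 1 ≤ (H.card : ℝ≥0∞) + ((Beyond d.G1 g y).encard : ℝ≥0∞) := by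
    have h0 : clus S (pat S t x A ω) 1 ⊆ ↑H ∪ Beyond d.G1 g y := by
      unfold clus
      rw [hopn]
      exact d.component_sub
    unfold sz
    calc ((clus S (pat S t x A ω) 1).encard : ℝ≥0∞) ≤ ((↑H ∪ Beyond d.G1 g y : Set Γ).encard : ℝ≥0∞) := by
          exact_mod_cast Set.encard_le_encard h0
      _ ≤ (((H : Set Γ).encard + (Beyond d.G1 g y).encard : ℕ∞) : ℝ≥0∞) :=
          ENat.toENNReal_le.2 (Set.encard_union_le _ _)
      _ = _ := by
          rw [Set.encard_coe_eq_coe_finsetCard]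
          simp
  -- the term
  have hterm : ((Beyond d.G1 g y).encard : ℝ≥0∞) / sz S (pat S t x A ω) 1 ≤
      gx S F t x (pat S t x A ω) := by
    unfold gx
    refine le_trans ?_ (Finset.single_le_sum (f := fun g => ∑ s ∈ S,
      Set.indicator {ω : Cfg Γ | DeadEnd (opn S ω) 1 F g (g * s)}
      (fun ω => ((Beyond (opn S ω) g (g * s)).encard : ℝ≥0∞) / sz S ω 1) (pat S t x A ω))
      (fun _ _ => bot_le) hgball)
    refine le_trans ?_ (Finset.single_le_sum (f := fun s =>
      Set.indicator {ω : Cfg Γ | DeadEnd (opn S ω) 1 F g (g * s)}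
      (fun ω => ((Beyond (opn S ω) g (g * s)).encard : ℝ≥0∞) / sz S ω 1) (pat S t x A ω))
      (fun _ _ => bot_le) hs)
    have hmem : pat S t x A ω ∈ {ω : Cfg Γ | DeadEnd (opn S ω) 1 F g (g * (g⁻¹ * y))} := by
      show DeadEnd (opn S (pat S t x A ω)) 1 F g (g * (g⁻¹ * y))
      rw [mul_inv_cancel_left]
      exact hdead
    rw [Set.indicator_of_mem hmem, mul_inv_cancel_left, hopn]
  refine le_trans ?_ hterm
  -- arithmetic
  obtain ⟨D, hD⟩ : ∃ D : ℕ, ((Beyond d.G1 g y).encard : ℝ≥0∞) = (D : ℝ≥0∞) :=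
    ⟨(Beyond d.G1 g y).ncard, by rw [← hBfin.cast_ncard_eq]; simp⟩
  rw [hD] at hsz1 hsz2 ⊢
  obtain ⟨k, hk⟩ : ∃ k : ℕ, min (sz S ω u) (M : ℝ≥0∞) = (k : ℝ≥0∞) := by
    obtain ⟨k', hk'⟩ : ∃ k : ℕ, sz S ω u = (k : ℝ≥0∞) :=
      ⟨(clus S ω u).ncard, by unfold sz; rw [← (hfin u).cast_ncard_eq]; simp⟩
    exact ⟨min k' M, by rw [hk']; exact (Monotone.map_min (f := fun n : ℕ => (n : ℝ≥0∞)) (fun a b h => Nat.cast_le.2 h)).symm⟩
  have hkD : k ≤ D := by
    have : (k : ℝ≥0∞) ≤ (D : ℝ≥0∞) := by rw [← hk]; exact le_trans (min_le_left _ _) hsz1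
    exact_mod_cast this
  have hkM : k ≤ M := by
    have : (k : ℝ≥0∞) ≤ (M : ℝ≥0∞) := by rw [← hk]; exact min_le_right _ _
    exact_mod_cast this
  rw [hk]
  have h1H : 0 < H.card := by
    apply Finset.card_pos.2
    refine ⟨1, ?_⟩
    have : (1 : Γ) ∈ clus S ω 1 := SimpleGraph.Reachable.refl _
    rw [hH] at this
    exact this
  calc (k : ℝ≥0∞) / ((H.card + M : ℕ) : ℝ≥0∞) ≤ (D : ℝ≥0∞) / ((H.card + D : ℕ) : ℝ≥0∞) := by
        rw [ENNReal.div_le_iff_le_mul (Or.inl (by positivity)) (Or.inl (ENNReal.natCast_ne_top _)),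
          mul_comm, ← mul_div_assoc, ENNReal.le_div_iff_mul_le (Or.inl (by positivity))
          (Or.inl (ENNReal.natCast_ne_top _))]
        have : k * (H.card + D) ≤ (H.card + M) * D := by nlinarith
        exact_mod_cast this
    _ ≤ (D : ℝ≥0∞) / sz S (pat S t x A ω) 1 := by
        apply ENNReal.div_le_div_left
        refine le_trans hsz2 ?_
        push_cast
        exact le_refl _

end Pool.Agent.IIC
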