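import Pool.Agent.IICG.Defs
import Pool.Agent.IIC.P_meas_sz
import Pool.Agent.IIC.P_meas_ovr
import Pool.Agent.IIC.P_fin_all
import Pool.Agent.IIC.P_tau_one
import Pool.Agent.IICG.P_surgery_gx
import Pool.Agent.IICG.P_card_ball
import Pool.Agent.IICG.P_meas_meets
import Pool.Agent.IICG.P_meas_trunk
import Pool.Agent.IICG.P_meas_clus_eq
import Pool.Agent.IICG.P_meas_gx
import Pool.Agent.IICG.P_evt_lower
import Pool.Agent.IICG.P_evt_meets

set_option autoImplicit false
set_option linter.unusedVariables false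
set_option linter.unusedSectionVars false

/-!
# Zero density of the incipient infinite cluster: definitions

`Γ` is a group, `S` a finite set (symmetric, generating, in the theorem).  Bond percolation on the
Cayley graph `cay S` is modelled on configurations `Cfg Γ = Sym2 Γ → Bool`; only the bits at edges
of the Cayley graph are used.
-/

namespace Pool.Agent.IIC
open MeasureTheory ProbabilityTheory
open scoped ENNReal NNReal
variable {Γ : Type} [Group Γ]


theorem one_H_meas [Countable Γ] (S : Finset Γ) (F : Set Γ) (t : ℕ) (x : Γ) (A : Finset (Sym2 Γ)) :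
    Measurable (fun ω : Cfg Γ => gx S F t x (pat S t x A ω)) := by
  classical
  have h1 : Measurable (fun ω : Cfg Γ => pat S t x A ω) := by
    unfold pat
    exact meas_ovr _ _
  exact (meas_gx S F t x).comp h1

theorem one_H_pt [Countable Γ] {S : Finset Γ} (hS : Symm S) (hg : Gen S) (F : Set Γ)
    (t M N : ℕ) (x u : Γ) (H : Finset Γ) (hball : ∀ w ∈ ball S x t, w ∉ F)
    (hN : H.card ≤ N) (hu : (cay S).dist x u ≤ t) (huH : u ∉ H) (ω : Cfg Γ)
    (hω : ∀ w : Γ, (clus S ω w).Finite) (hE : ω ∈ evt S F H x) [DecidablePred (fun w => w ∉ H)] :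
    min (sz S ω u) M ≤ (N + M : ℕ) * (∑ A ∈ (T S (ball S x t)).powerset,
        gx S F t x (pat S t x A ω)) +
      ∑ w ∈ (ball S x t).filter (fun w => w ∉ H),
        (M : ℝ≥0∞) * Set.indicator {ω : Cfg Γ | meets S F w ω} 1 ω := by
  rcases Nat.eq_zero_or_pos M with hM | hM
  · subst hM
    refine le_trans (min_le_right _ _) ?_
    simp
  by_cases hB : ∃ w ∈ ball S x t, w ∉ H ∧ meets S F w ω
  · obtain ⟨w, hw, hwH, hwm⟩ := hB
    refine (min_le_right _ _).trans (le_trans ?_ le_add_self)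
    have h1 : (M : ℝ≥0∞) * Set.indicator {ω : Cfg Γ | meets S F w ω} 1 ω = M := by
      have h2 : Set.indicator {ω : Cfg Γ | meets S F w ω} (1 : Cfg Γ → ℝ≥0∞) ω = 1 := by
        rw [Set.indicator_of_mem (show ω ∈ {ω : Cfg Γ | meets S F w ω} from hwm)]
        rfl
      rw [h2, mul_one]
    calc (M : ℝ≥0∞) = (M : ℝ≥0∞) * Set.indicator {ω : Cfg Γ | meets S F w ω} 1 ω := h1.symm
      _ ≤ _ := Finset.single_le_sum (f := fun w =>
          (M : ℝ≥0∞) * Set.indicator {ω : Cfg Γ | meets S F w ω} 1 ω)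
          (fun _ _ => zero_le) (Finset.mem_filter.mpr ⟨hw, hwH⟩)
  · push Not at hB
    obtain ⟨A, hA, hA2⟩ := surgery_gx hS hg F t M x u ω H hE.1 hE.2 hu huH hball hB hω
    refine le_trans ?_ le_self_add
    have hpos : ((H.card + M : ℕ) : ℝ≥0∞) ≠ 0 := by
      rw [Nat.cast_ne_zero]; omega
    rw [ENNReal.div_le_iff hpos (ENNReal.natCast_ne_top _)] at hA2
    refine hA2.trans ?_
    rw [mul_comm]
    apply mul_le_mul'
    · exact_mod_cast (by omega : H.card + M ≤ N + M)
    · exact Finset.single_le_sum (f := fun A => gx S F t x (pat S t x A ω))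
        (fun _ _ => zero_le) hA

/-- the basic inequality at a vertex `x` and a cluster `H` -/
theorem one_H [Countable Γ] {S : Finset Γ} (hS : Symm S) (hg : Gen S) (p : ℝ≥0) (hp : p ≤ 1)
    (hfin : Fin0 S p hp) (F : Set Γ) (t M N : ℕ) (x u : Γ) (ε : ℝ≥0∞) (H : Finset Γ)
    (hball : ∀ w ∈ ball S x t, w ∉ F)
    (hε : ∀ w ∈ ball S x t, bP Γ p hp {ω | meets S F w ω} ≤ ε)
    (hN : H.card ≤ N) (hu : (cay S).dist x u ≤ t) (huH : ∑ y ∈ H, tau S p hp u y ≤ 2⁻¹) :
    (XM S p hp M / 2) * bP Γ p hp (evt S F H x) ≤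
      (N + M : ℕ) * (∑ A ∈ (T S (ball S x t)).powerset,
        ∫⁻ ω in evt S F H x, gx S F t x (pat S t x A ω) ∂(bP Γ p hp)) +
      (M * (ball S 1 t).card * ε) * bP Γ p hp (evt S F H x) := by
  classical
  have hEm : MeasurableSet (evt S F H x) := (meas_clus_eq S 1 H).inter (meas_trunk S F x)
  have huH' : u ∉ H := by
    intro hu'
    have h1 : tau S p hp u u ≤ ∑ y ∈ H, tau S p hp u y :=
      Finset.single_le_sum (f := fun y => tau S p hp u y) (fun y _ => zero_le) hu'
    rw [tau_one] at h1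
    have h2 := h1.trans huH
    rw [ENNReal.one_le_inv] at h2
    exact absurd h2 (by norm_num)
  have hlow := evt_lower hS hg p hp hfin F H x u huH M
  rw [mul_comm] at hlow
  refine hlow.trans ?_
  have hpt : ∀ᵐ ω ∂((bP Γ p hp).restrict (evt S F H x)),
      min (sz S ω u) M ≤ (N + M : ℕ) * (∑ A ∈ (T S (ball S x t)).powerset,
        gx S F t x (pat S t x A ω)) +
      ∑ w ∈ (ball S x t).filter (fun w => w ∉ H),
        (M : ℝ≥0∞) * Set.indicator {ω : Cfg Γ | meets S F w ω} 1 ω := by
    filter_upwards [ae_restrict_of_ae (fin_all p hp S hfin), ae_restrict_mem hEm] with ω hω hE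
    exact one_H_pt hS hg F t M N x u H hball hN hu huH' ω hω hE
  refine (lintegral_mono_ae hpt).trans ?_
  have hm1 : Measurable (fun ω : Cfg Γ => ((N + M : ℕ) : ℝ≥0∞) *
      (∑ A ∈ (T S (ball S x t)).powerset, gx S F t x (pat S t x A ω))) :=
    (Finset.measurable_fun_sum _ fun A _ => one_H_meas S F t x A).const_mul _
  rw [lintegral_add_left hm1,
    lintegral_const_mul _ (Finset.measurable_fun_sum _ fun A _ => one_H_meas S F t x A),
    lintegral_finset_sum _ (fun A _ => one_H_meas S F t x A)]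
  apply add_le_add le_rfl
  have hind : ∀ w : Γ, Measurable (Set.indicator {ω : Cfg Γ | meets S F w ω} (1 : Cfg Γ → ℝ≥0∞)) :=
    fun w => measurable_one.indicator (meas_meets S F w)
  rw [lintegral_finset_sum _ (fun w _ => (hind w).const_mul _)]
  have hterm : ∀ w ∈ (ball S x t).filter (fun w => w ∉ H),
      ∫⁻ ω in evt S F H x, (M : ℝ≥0∞) * Set.indicator {ω : Cfg Γ | meets S F w ω} 1 ω
        ∂(bP Γ p hp) ≤ M * (bP Γ p hp (evt S F H x) * ε) := by
    intro w hw
    rw [Finset.mem_filter] at hw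
    rw [lintegral_const_mul _ (hind w), lintegral_indicator_one (meas_meets S F w),
      Measure.restrict_apply (meas_meets S F w), Set.inter_comm]
    apply mul_le_mul' le_rfl
    refine (evt_meets hS hg p hp F H x w hw.2).trans ?_
    exact mul_le_mul' le_rfl (hε w hw.1)
  refine (Finset.sum_le_sum hterm).trans ?_
  rw [Finset.sum_const, nsmul_eq_mul]
  have hcard : (((ball S x t).filter (fun w => w ∉ H)).card : ℝ≥0∞) ≤ ((ball S 1 t).card : ℝ≥0∞) := by
    rw [← card_ball hS hg x t]
    exact_mod_cast Finset.card_filter_le _ _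
  calc (((ball S x t).filter (fun w => w ∉ H)).card : ℝ≥0∞) *
        (M * (bP Γ p hp (evt S F H x) * ε))
      ≤ ((ball S 1 t).card : ℝ≥0∞) * (M * (bP Γ p hp (evt S F H x) * ε)) :=
        mul_le_mul' hcard le_rfl
    _ = (M * (ball S 1 t).card * ε) * bP Γ p hp (evt S F H x) := by ring

end Pool.Agent.IIC
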