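import Pool.Agent.IICG.Defs
import Pool.Agent.IIC.P_meas_ovr
import Pool.Agent.IICG.P_meas_trunk
import Pool.Agent.IICG.P_meas_clus_eq
import Pool.Agent.IICG.P_meas_gx
import Pool.Agent.IICG.P_one_H

set_option autoImplicit false
set_option linter.unusedVariables false
set_option linter.unusedSectionVars false

/-!
# Zero density of the incipient infinite cluster: definitions

`Γ` is a group, `S` a finite set (symmetric, generating, in the theorem).  Bond percolation on the
Cayley graph `cay S` is modelled on configurations `Cfg Γ = Sym2 Γ → Bool`; only the bits at edges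
of the Cayley graph are used.
-/

namespace Pool.Agent.IIC
open MeasureTheory ProbabilityTheory
open scoped ENNReal NNReal
variable {Γ : Type} [Group Γ]


/-- the basic inequality at a vertex `x` -/
theorem one_x [Countable Γ] {S : Finset Γ} (hS : Symm S) (hg : Gen S) (p : ℝ≥0) (hp : p ≤ 1)
    (hfin : Fin0 S p hp) (F : Set Γ) (t M N : ℕ) (x : Γ) (ε : ℝ≥0∞) (κ : ℝ≥0)
    (hκ : ∀ (f : Cfg Γ → ℝ≥0∞), Measurable f →
      ∑ A ∈ (T S (ball S x t)).powerset, ∫⁻ ω, f (pat S t x A ω) ∂(bP Γ p hp) ≤
        κ * ∫⁻ ω, f ω ∂(bP Γ p hp))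
    (hball : ∀ w ∈ ball S x t, w ∉ F)
    (hε : ∀ w ∈ ball S x t, bP Γ p hp {ω | meets S F w ω} ≤ ε)
    (good : Set (Finset Γ))
    (hgood : ∀ H ∈ good, H.card ≤ N ∧
      ∃ u, (cay S).dist x u ≤ t ∧ ∑ y ∈ H, tau S p hp u y ≤ 2⁻¹) :
    (XM S p hp M / 2) * (∑' H : Finset Γ, Set.indicator good
        (fun H => bP Γ p hp (evt S F H x)) H) ≤
      (N + M : ℕ) * (κ * ∫⁻ ω, gx S F t x ω ∂(bP Γ p hp)) +
      (M * (ball S 1 t).card * ε) * (∑' H : Finset Γ, Set.indicator good
        (fun H => bP Γ p hp (evt S F H x)) H) := by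
  classical
  set I : Finset Γ → ℝ≥0∞ := fun H => Set.indicator good
        (fun H => bP Γ p hp (evt S F H x)) H with hI
  set J : Finset Γ → ℝ≥0∞ := fun H => ∑ A ∈ (T S (ball S x t)).powerset,
        ∫⁻ ω in evt S F H x, gx S F t x (pat S t x A ω) ∂(bP Γ p hp) with hJ
  have hstep : ∀ H : Finset Γ, (XM S p hp M / 2) * I H ≤
      (N + M : ℕ) * J H + (M * (ball S 1 t).card * ε) * I H := by
    intro H
    by_cases hH : H ∈ good
    · obtain ⟨hN, u, hu, huH⟩ := hgood H hH
      have h := one_H (M := M) hS hg p hp hfin F t N x u ε H hball hε hN hu huH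
      simp only [hI, hJ, Set.indicator_of_mem hH]
      exact h
    · have h0 : I H = 0 := by simp only [hI, Set.indicator_of_notMem hH]
      rw [h0, mul_zero]
      exact zero_le
  have hsum : (XM S p hp M / 2) * ∑' H, I H ≤
      (N + M : ℕ) * ∑' H, J H + (M * (ball S 1 t).card * ε) * ∑' H, I H := by
    rw [← ENNReal.tsum_mul_left, ← ENNReal.tsum_mul_left, ← ENNReal.tsum_mul_left,
      ← ENNReal.tsum_add]
    exact ENNReal.tsum_le_tsum hstep
  have hJsum : ∑' H, J H ≤ κ * ∫⁻ ω, gx S F t x ω ∂(bP Γ p hp) := by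
    refine le_trans ?_ (hκ (gx S F t x) (meas_gx S F t x))
    rw [hJ, Summable.tsum_finsetSum (fun A _ => ENNReal.summable)]
    refine Finset.sum_le_sum fun A _ => ?_
    have hm : ∀ H : Finset Γ, MeasurableSet (evt S F H x) := fun H =>
      (meas_clus_eq S 1 H).inter (meas_trunk S F x)
    have hd : Pairwise (Function.onFun Disjoint (fun H : Finset Γ => evt S F H x)) := by
      intro H H' hne
      refine Set.disjoint_left.2 fun ω h1 h2 => hne ?_
      exact Finset.coe_injective (h1.1.symm.trans h2.1)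
    rw [← lintegral_iUnion hm hd]
    exact setLIntegral_le_lintegral _ _
  refine hsum.trans ?_
  gcongr

end Pool.Agent.IIC
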