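import Pool.Agent.IICG.Defs

/-!
Dead ends of a graph, seen from an origin `o` and a target set `F`, and their disjointness.
Purely deterministic.
-/

set_option autoImplicit false
set_option linter.unusedVariables false
set_option linter.unusedSectionVars false

namespace Pool.Agent.IIC

open SimpleGraph

variable {V : Type}

theorem self_mem_Beyond (G : SimpleGraph V) (g y : V) : y ∈ Beyond G g y :=
  Reachable.refl _

theorem Beyond_adj {G : SimpleGraph V} {g y a b : V} (ha : a ∈ Beyond G g y)
    (hab : G.Adj a b) (hne : s(a, b) ≠ s(g, y)) : b ∈ Beyond G g y := by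
  refine Reachable.trans ha (Adj.reachable ?_)
  rw [deleteEdges_adj]
  exact ⟨hab, by simpa using hne⟩

theorem edge_of_boundary {G : SimpleGraph V} {g y a b : V} (ha : a ∈ Beyond G g y)
    (hb : b ∉ Beyond G g y) (hab : G.Adj a b) : s(a, b) = s(g, y) := by
  by_contra hne
  exact hb (Beyond_adj ha hab hne)

theorem trail_avoids {G : SimpleGraph V} {o t g y : V} (ho : o ∉ Beyond G g y)
    (ht : t ∉ Beyond G g y) (w : G.Walk o t) (hw : w.IsTrail) {v : V} (hv : v ∈ w.support) :
    v ∉ Beyond G g y := by
  classical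
  intro hvD
  obtain ⟨d1, hd1, h1a, h1b⟩ := (w.takeUntil v hv).exists_boundary_dart (Beyond G g y)ᶜ ho
    (by simpa using hvD)
  obtain ⟨d2, hd2, h2a, h2b⟩ := (w.dropUntil v hv).exists_boundary_dart (Beyond G g y) hvD ht
  have e1 : d1.edge = s(g, y) := by
    have := edge_of_boundary (G := G) (g := g) (y := y) (a := d1.snd) (b := d1.fst)
      (by simpa using h1b) (by simpa using h1a) d1.adj.symm
    rw [← this, Sym2.eq_swap]; rfl
  have e2 : d2.edge = s(g, y) := by
    have := edge_of_boundary (G := G) (g := g) (y := y) (a := d2.fst) (b := d2.snd)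
      h2a h2b d2.adj
    rw [← this]; rfl
  have hn : w.edges.Nodup := hw.edges_nodup
  have hw' : w.edges = (w.takeUntil v hv).edges ++ (w.dropUntil v hv).edges := by
    rw [← Walk.edges_append, Walk.take_spec]
  rw [hw', List.nodup_append] at hn
  have m1 : s(g, y) ∈ (w.takeUntil v hv).edges := by
    rw [← e1]; exact List.mem_map_of_mem hd1
  have m2 : s(g, y) ∈ (w.dropUntil v hv).edges := by
    rw [← e2]; exact List.mem_map_of_mem hd2
  exact (hn.2.2 _ m1 _ m2) rfl

theorem DeadEnd.trunk_avoids {G : SimpleGraph V} {o : V} {F : Set V} {g y g' y' : V}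
    (h : DeadEnd G o F g y) (h' : DeadEnd G o F g' y') : g' ∉ Beyond G g y := by
  obtain ⟨t, ht, w, hw, hg'⟩ := h'.trunk
  exact trail_avoids h.root (h.target t ht) w hw hg'

theorem Beyond_subset_of_mem {G : SimpleGraph V} {o : V} {F : Set V} {g y g' y' v : V}
    (h : DeadEnd G o F g y) (h' : DeadEnd G o F g' y')
    (hv : v ∈ Beyond G g y) (hv' : v ∈ Beyond G g' y') : Beyond G g y ⊆ Beyond G g' y' := by
  classical
  -- walk inside Beyond g y from v to x; no edge is s(g',y') as g' is not in Beyond g y
  intro x hx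
  have hg' : g' ∉ Beyond G g y := h.trunk_avoids h'
  have hvx : (G.deleteEdges {s(g, y)}).Reachable v x := Reachable.trans (Reachable.symm hv) hx
  obtain ⟨p⟩ := hvx
  -- induct on p
  have key : ∀ {a b : V} (p : (G.deleteEdges {s(g, y)}).Walk a b), a ∈ Beyond G g y →
      a ∈ Beyond G g' y' → b ∈ Beyond G g' y' := by
    intro a b p
    induction p with
    | nil => intro _ h; exact h
    | @cons a c b hac p ih =>
      intro haD haD'
      have hc : c ∈ Beyond G g y := Reachable.trans haD hac.reachable
      rw [deleteEdges_adj] at hac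
      refine ih hc (Beyond_adj haD' hac.1 ?_)
      intro he
      have : g' ∈ s(a, c) := by rw [he]; exact Sym2.mem_mk_left _ _
      rw [Sym2.mem_iff] at this
      rcases this with rfl | rfl
      · exact hg' haD
      · exact hg' hc
  exact key p hv hv'

/-- Two dead ends that share a vertex coincide. -/
theorem DeadEnd.unique {G : SimpleGraph V} {o : V} {F : Set V} {g y g' y' v : V}
    (h : DeadEnd G o F g y) (h' : DeadEnd G o F g' y')
    (hv : v ∈ Beyond G g y) (hv' : v ∈ Beyond G g' y') : g = g' ∧ y = y' := by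
  have h1 := Beyond_subset_of_mem h h' hv hv'
  have h2 := Beyond_subset_of_mem h' h hv' hv
  have hg' : g' ∉ Beyond G g y := h.trunk_avoids h'
  have hg : g ∉ Beyond G g' y' := h'.trunk_avoids h
  have hy' : y' ∈ Beyond G g y := h2 (self_mem_Beyond _ _ _)
  have e := edge_of_boundary hy' hg' h'.adj.symm
  rw [Sym2.eq_iff] at e
  rcases e with ⟨rfl, rfl⟩ | ⟨rfl, rfl⟩
  · exact absurd hy' h.bridge
  · exact ⟨rfl, rfl⟩

theorem Beyond_subset_component {G : SimpleGraph V} {o : V} {F : Set V} {g y : V}
    (h : DeadEnd G o F g y) : Beyond G g y ⊆ {v | G.Reachable o v} := by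
  classical
  intro v hv
  obtain ⟨t, -, w, -, hg⟩ := h.trunk
  have h1 : G.Reachable o g := ⟨w.takeUntil g hg⟩
  have h2 : G.Reachable y v := Reachable.mono (deleteEdges_le _) hv
  exact h1.trans (h.adj.reachable.trans h2)

/-- The dead ends of a finite set of directed edges have total size at most the cluster. -/
theorem sum_Beyond_le {G : SimpleGraph V} {o : V} {F : Set V} (P : Finset (V × V))
    (hP : ∀ e ∈ P, DeadEnd G o F e.1 e.2) (hfin : {v | G.Reachable o v}.Finite) :
    ∑ e ∈ P, (Beyond G e.1 e.2).ncard ≤ {v | G.Reachable o v}.ncard := by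
  classical
  have hsub : ∀ e ∈ P, Beyond G e.1 e.2 ⊆ {v | G.Reachable o v} := fun e he =>
    Beyond_subset_component (hP e he)
  let F : V × V → Finset V := fun e => hfin.toFinset.filter (fun v => v ∈ Beyond G e.1 e.2)
  have hF : ∀ e ∈ P, (Beyond G e.1 e.2).ncard = (F e).card := by
    intro e he
    rw [← Set.ncard_coe_finset]
    congr 1
    ext v
    simp only [F, Finset.coe_filter, Set.Finite.mem_toFinset, Set.mem_ofPred_eq]
    exact ⟨fun h => ⟨hsub e he h, h⟩, fun h => h.2⟩
  rw [Finset.sum_congr rfl hF, ← Finset.card_biUnion]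
  · rw [Set.ncard_eq_toFinset_card _ hfin]
    apply Finset.card_le_card
    intro v hv
    rw [Finset.mem_biUnion] at hv
    obtain ⟨e, -, hv⟩ := hv
    exact (Finset.mem_filter.1 hv).1
  · intro e he e' he' hne
    rw [Function.onFun, Finset.disjoint_left]
    intro v hv hv'
    have := (hP e he).unique (hP e' he') (Finset.mem_filter.1 hv).2 (Finset.mem_filter.1 hv').2
    exact hne (Prod.ext this.1 this.2)

end Pool.Agent.IIC
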