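import Pool.Agent.IICG.Defs
import Pool.Agent.IIC.P_dist_smul
import Pool.Agent.IIC.P_mem_ball
import Pool.Agent.IICG.P_sum_Beyond_le
import Pool.Agent.IICG.P_card_ball

set_option autoImplicit false
set_option linter.unusedVariables false
set_option linter.unusedSectionVars false

/-!
# Zero density of the incipient infinite cluster: definitions

`Γ` is a group, `S` a finite set (symmetric, generating, in the theorem).  Bond percolation on the
Cayley graph `cay S` is modelled on configurations `Cfg Γ = Sym2 Γ → Bool`; only the bits at edges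
of the Cayley graph are used.
-/

namespace Pool.Agent.IIC
open MeasureTheory ProbabilityTheory
open scoped ENNReal NNReal
variable {Γ : Type} [Group Γ]


lemma j22744_sub {S : Finset Γ} (F : Set Γ) (ω : Cfg Γ) (g y : Γ)
    (hd : DeadEnd (opn S ω) 1 F g y) : Beyond (opn S ω) g y ⊆ clus S ω 1 := by
  classical
  intro v hv
  obtain ⟨t, _, w, _, hgw⟩ := hd.trunk
  have h1 : (opn S ω).Reachable 1 g := ⟨w.takeUntil g hgw⟩
  have h2 : (opn S ω).Reachable g y := hd.adj.reachable
  have h3 : (opn S ω).Reachable y v :=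
    SimpleGraph.Reachable.mono (SimpleGraph.deleteEdges_le _) hv
  exact (h1.trans h2).trans h3

theorem sum_gx_le {S : Finset Γ} (hS : Symm S) (hg : Gen S) (F : Set Γ) (t : ℕ) (X : Finset Γ)
    (ω : Cfg Γ) (hfin : (clus S ω 1).Finite) :
    ∑ x ∈ X, gx S F t x ω ≤
      (ball S 1 t).card * Set.indicator {ω | meets S F 1 ω} (fun _ => (1 : ℝ≥0∞)) ω := by
  classical
  let a : Γ → ℝ≥0∞ := fun g => ∑ s ∈ S,
    Set.indicator {ω : Cfg Γ | DeadEnd (opn S ω) 1 F g (g * s)}
      (fun ω => ((Beyond (opn S ω) g (g * s)).encard : ℝ≥0∞) / sz S ω 1) ω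
  have hgx : ∀ x, gx S F t x ω = ∑ g ∈ ball S x t, a g := fun x => rfl
  let U := X.biUnion (fun x => ball S x t)
  have h1 : ∑ x ∈ X, gx S F t x ω ≤ (ball S 1 t).card * ∑ g ∈ U, a g := by
    calc ∑ x ∈ X, gx S F t x ω = ∑ x ∈ X, ∑ g ∈ U, if g ∈ ball S x t then a g else 0 := by
          refine Finset.sum_congr rfl fun x hx => ?_
          rw [hgx, ← Finset.sum_filter]
          refine Finset.sum_congr ?_ fun _ _ => rfl
          ext g
          rw [Finset.mem_filter, Finset.mem_biUnion]
          constructor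
          · intro h
            exact ⟨⟨x, hx, h⟩, h⟩
          · intro h
            exact h.2
      _ = ∑ g ∈ U, ∑ x ∈ X, if g ∈ ball S x t then a g else 0 := Finset.sum_comm
      _ ≤ ∑ g ∈ U, (ball S 1 t).card * a g := by
          refine Finset.sum_le_sum fun g _ => ?_
          rw [← Finset.sum_filter, Finset.sum_const, nsmul_eq_mul]
          refine mul_le_mul_left ?_ (a g)
          rw [← card_ball hS hg g t]
          have h3 : (X.filter (fun x => g ∈ ball S x t)).card ≤ (ball S g t).card := by
            apply Finset.card_le_card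
            intro x hx
            rw [Finset.mem_filter] at hx
            have h4 := (mem_ball hS hg x g t).mp hx.2
            rw [SimpleGraph.dist_comm] at h4
            exact (mem_ball hS hg g x t).mpr h4
          exact_mod_cast h3
      _ = _ := by rw [Finset.mul_sum]
  have h2 : ∑ g ∈ U, a g ≤ Set.indicator {ω | meets S F 1 ω} (fun _ => (1 : ℝ≥0∞)) ω := by
    have hmeet : ∀ g s, DeadEnd (opn S ω) 1 F g (g * s) → meets S F 1 ω := by
      intro g s hd
      obtain ⟨z, hz, w, _, _⟩ := hd.trunk
      exact ⟨z, hz, ⟨w⟩⟩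
    by_cases hm : meets S F 1 ω
    · rw [Set.indicator_of_mem (show ω ∈ {ω | meets S F 1 ω} from hm)]
      let Q := (U ×ˢ S).filter (fun p => DeadEnd (opn S ω) 1 F p.1 (p.1 * p.2))
      have h5 : ∑ g ∈ U, a g = ∑ p ∈ Q,
          ((Beyond (opn S ω) p.1 (p.1 * p.2)).encard : ℝ≥0∞) * (sz S ω 1)⁻¹ := by
        rw [Finset.sum_filter, Finset.sum_product]
        refine Finset.sum_congr rfl fun g _ => Finset.sum_congr rfl fun s _ => ?_
        rw [Set.indicator_apply]
        simp only [Set.mem_ofPred_eq, div_eq_mul_inv]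
      have h6 : ∑ p ∈ Q, ((Beyond (opn S ω) p.1 (p.1 * p.2)).encard : ℝ≥0∞) ≤ sz S ω 1 := by
        have h7 : ∀ p ∈ Q, ((Beyond (opn S ω) p.1 (p.1 * p.2)).encard : ℝ≥0∞) =
            ((Beyond (opn S ω) p.1 (p.1 * p.2)).ncard : ℝ≥0∞) := by
          intro p hp
          have h8 := hfin.subset (j22744_sub F ω _ _ (Finset.mem_filter.mp hp).2)
          rw [← h8.cast_ncard_eq]
          simp
        have h9 : sz S ω 1 = ((clus S ω 1).ncard : ℝ≥0∞) := by
          unfold sz
          rw [← hfin.cast_ncard_eq]
          simp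
        rw [Finset.sum_congr rfl h7, h9, ← Nat.cast_sum]
        have h10 := sum_Beyond_le (G := opn S ω) (o := 1) (F := F)
          (Q.image (fun p => (p.1, p.1 * p.2))) (by
            intro e he
            rw [Finset.mem_image] at he
            obtain ⟨p, hp, rfl⟩ := he
            exact (Finset.mem_filter.mp hp).2) hfin
        rw [Finset.sum_image (by
          intro p _ p' _ hpp
          simp only [Prod.mk.injEq] at hpp
          obtain ⟨e1, e2⟩ := hpp
          rw [e1] at e2
          exact Prod.ext e1 (mul_left_cancel e2))] at h10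
        exact_mod_cast h10
      rw [h5, ← Finset.sum_mul]
      calc (∑ p ∈ Q, ((Beyond (opn S ω) p.1 (p.1 * p.2)).encard : ℝ≥0∞)) * (sz S ω 1)⁻¹
          ≤ sz S ω 1 * (sz S ω 1)⁻¹ := mul_le_mul_left h6 _
        _ ≤ 1 := by
          rw [← div_eq_mul_inv]
          exact ENNReal.div_self_le_one
    · refine le_trans (le_of_eq ?_) zero_le
      refine Finset.sum_eq_zero fun g _ => Finset.sum_eq_zero fun s _ => ?_
      rw [Set.indicator_of_notMem]
      intro h
      exact hm (hmeet g s h)
  exact h1.trans (mul_le_mul_right h2 _)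

end Pool.Agent.IIC
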