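import Pool.Agent.IICG.Defs
import Pool.Agent.IIC.P_meas_sz
import Pool.Agent.IICG.P_meas_meets
import Pool.Agent.IICG.P_meas_trunk
import Pool.Agent.IICG.P_meas_clus_eq

set_option autoImplicit false
set_option linter.unusedVariables false
set_option linter.unusedSectionVars false

/-!
# Zero density of the incipient infinite cluster: definitions

`Γ` is a group, `S` a finite set (symmetric, generating, in the theorem).  Bond percolation on the
Cayley graph `cay S` is modelled on configurations `Cfg Γ = Sym2 Γ → Bool`; only the bits at edges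
of the Cayley graph are used.
-/

namespace Pool.Agent.IIC
open MeasureTheory ProbabilityTheory
open scoped ENNReal NNReal
variable {Γ : Type} [Group Γ]


theorem sum_x_meas [Countable Γ] (S : Finset Γ) (F : Set Γ) (good : Γ → Set (Finset Γ))
    (x : Γ) (H : Finset Γ) :
    Measurable (fun ω : Cfg Γ => Set.indicator (good x)
      (fun H => Set.indicator (evt S F H x) (fun _ => (1 : ℝ≥0∞)) ω) H) := by
  by_cases h : H ∈ good x
  · simp only [Set.indicator_of_mem h]
    exact measurable_const.indicator ((meas_clus_eq S 1 H).inter (meas_trunk S F x))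
  · simp only [Set.indicator_of_notMem h]
    exact measurable_const

/-- summation over `x` -/
theorem sum_x [Countable Γ] {S : Finset Γ} (hS : Symm S) (hg : Gen S) (p : ℝ≥0) (hp : p ≤ 1)
    (hfin : Fin0 S p hp) (F : Set Γ) (N m : ℕ) (Y : Finset Γ)
    (good : Γ → Set (Finset Γ))
    (hcount : ∀ (ω : Cfg Γ) (H : Finset Γ), clus S ω 1 = ↑H → H.card ≤ N → meets S F 1 ω →
      ∃ X : Finset Γ, X ⊆ Y ∧ m ≤ X.card ∧ ∀ x ∈ X, x ∈ trunk S F ω ∧ H ∈ good x) :
    m * bP Γ p hp {ω | meets S F 1 ω ∧ sz S ω 1 ≤ N} ≤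
      ∑ x ∈ Y, ∑' H : Finset Γ, Set.indicator (good x)
        (fun H => bP Γ p hp (evt S F H x)) H := by
  classical
  have hA : MeasurableSet {ω : Cfg Γ | meets S F 1 ω ∧ sz S ω 1 ≤ N} :=
    (meas_meets S F 1).inter (measurableSet_le (meas_sz S 1) measurable_const)
  have hE : ∀ x H, MeasurableSet (evt S F H x) := fun x H =>
    (meas_clus_eq S 1 H).inter (meas_trunk S F x)
  have e1 : ∀ x, ∀ H : Finset Γ, Set.indicator (good x) (fun H => bP Γ p hp (evt S F H x)) H
      = ∫⁻ ω, Set.indicator (good x)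
        (fun H => Set.indicator (evt S F H x) (fun _ => (1 : ℝ≥0∞)) ω) H ∂(bP Γ p hp) := by
    intro x H
    by_cases h : H ∈ good x
    · simp only [Set.indicator_of_mem h]
      rw [lintegral_indicator (hE x H)]
      simp
    · simp [Set.indicator_of_notMem h]
  have e2 : ∑ x ∈ Y, ∑' H : Finset Γ, Set.indicator (good x)
        (fun H => bP Γ p hp (evt S F H x)) H
      = ∫⁻ ω, ∑ x ∈ Y, ∑' H : Finset Γ, Set.indicator (good x)
        (fun H => Set.indicator (evt S F H x) (fun _ => (1 : ℝ≥0∞)) ω) H ∂(bP Γ p hp) := by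
    rw [lintegral_finset_sum]
    · refine Finset.sum_congr rfl fun x _ => ?_
      rw [lintegral_tsum]
      · exact tsum_congr fun H => e1 x H
      · exact fun H => (sum_x_meas S F good x H).aemeasurable
    · exact fun x _ => Measurable.tsum fun H => sum_x_meas S F good x H
  have hpt : ∀ ω ∈ {ω : Cfg Γ | meets S F 1 ω ∧ sz S ω 1 ≤ N}, (m : ℝ≥0∞) ≤
      ∑ x ∈ Y, ∑' H : Finset Γ, Set.indicator (good x)
        (fun H => Set.indicator (evt S F H x) (fun _ => (1 : ℝ≥0∞)) ω) H := by
    rintro ω ⟨hm, hs⟩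
    have hfinite : (clus S ω 1).Finite := by
      rw [← Set.encard_lt_top_iff]
      rw [lt_top_iff_ne_top]
      intro h
      rw [sz, h] at hs
      simp at hs
    have hcard : hfinite.toFinset.card ≤ N := by
      rw [sz, hfinite.encard_eq_coe_toFinset_card] at hs
      exact_mod_cast hs
    have hcl : clus S ω 1 = ↑hfinite.toFinset := by simp
    obtain ⟨X, hXY, hmX, hX⟩ := hcount ω hfinite.toFinset hcl hcard hm
    calc (m : ℝ≥0∞) ≤ (X.card : ℝ≥0∞) := by exact_mod_cast hmX
      _ = ∑ x ∈ X, (1 : ℝ≥0∞) := by simp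
      _ ≤ ∑ x ∈ X, ∑' H : Finset Γ, Set.indicator (good x)
        (fun H => Set.indicator (evt S F H x) (fun _ => (1 : ℝ≥0∞)) ω) H := by
          refine Finset.sum_le_sum fun x hx => ?_
          refine le_trans ?_ (ENNReal.le_tsum hfinite.toFinset)
          rw [Set.indicator_of_mem (hX x hx).2, Set.indicator_of_mem]
          exact ⟨hcl, (hX x hx).1⟩
      _ ≤ _ := Finset.sum_le_sum_of_subset hXY
  rw [e2, ← lintegral_indicator_one hA, ← lintegral_const_mul' _ _ (ENNReal.natCast_ne_top m)]
  refine lintegral_mono fun ω => ?_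
  by_cases hω : ω ∈ {ω : Cfg Γ | meets S F 1 ω ∧ sz S ω 1 ≤ N}
  · simp only [Set.indicator_of_mem hω, Pi.one_apply, mul_one]
    exact hpt ω hω
  · simp only [Set.indicator_of_notMem hω, mul_zero]
    exact bot_le

end Pool.Agent.IIC
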