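import Pool.Agent.IICG.Defs
import Pool.Agent.IIC.P_fin_all
import Pool.Agent.IICG.P_sum_gx_le
import Pool.Agent.IICG.P_meas_trunk
import Pool.Agent.IICG.P_meas_clus_eq
import Pool.Agent.IICG.P_meas_gx
import Pool.Agent.IICG.P_one_x
import Pool.Agent.IICG.P_sum_x

set_option autoImplicit false
set_option linter.unusedVariables false
set_option linter.unusedSectionVars false

/-!
# Zero density of the incipient infinite cluster: definitions

`Γ` is a group, `S` a finite set (symmetric, generating, in the theorem).  Bond percolation on the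
Cayley graph `cay S` is modelled on configurations `Cfg Γ = Sym2 Γ → Bool`; only the bits at edges
of the Cayley graph are used.
-/

namespace Pool.Agent.IIC
open MeasureTheory ProbabilityTheory
open scoped ENNReal NNReal
variable {Γ : Type} [Group Γ]


/-- the resulting inequality at scale `n` -/
theorem main_ineq [Countable Γ] {S : Finset Γ} (hS : Symm S) (hg : Gen S) (p : ℝ≥0) (hp : p ≤ 1)
    (hfin : Fin0 S p hp) (F : Set Γ) (t M N m : ℕ) (ε : ℝ≥0∞) (κ : ℝ≥0)
    (hκ : ∀ (x : Γ) (f : Cfg Γ → ℝ≥0∞), Measurable f →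
      ∑ A ∈ (T S (ball S x t)).powerset, ∫⁻ ω, f (pat S t x A ω) ∂(bP Γ p hp) ≤
        κ * ∫⁻ ω, f ω ∂(bP Γ p hp))
    (Y : Finset Γ)
    (hball : ∀ x ∈ Y, ∀ w ∈ ball S x t, w ∉ F)
    (hε : ∀ x ∈ Y, ∀ w ∈ ball S x t, bP Γ p hp {ω | meets S F w ω} ≤ ε)
    (hε1 : M * (ball S 1 t).card * ε ≤ 1)
    (hXM : 1 ≤ XM S p hp M / 2)
    (hcount : ∀ (ω : Cfg Γ) (H : Finset Γ), clus S ω 1 = ↑H → H.card ≤ N → meets S F 1 ω →
      ∃ X : Finset Γ, X ⊆ Y ∧ m ≤ X.card ∧ ∀ x ∈ X, x ∈ trunk S F ω ∧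
        ∃ u, (cay S).dist x u ≤ t ∧ ∑ y ∈ H, tau S p hp u y ≤ 2⁻¹) :
    (XM S p hp M / 2 - 1) * (m * bP Γ p hp {ω | meets S F 1 ω ∧ sz S ω 1 ≤ N}) ≤
      (N + M : ℕ) * (κ * ((ball S 1 t).card * bP Γ p hp {ω | meets S F 1 ω})) := by
  set good : Γ → Set (Finset Γ) := fun x => {H : Finset Γ | H.card ≤ N ∧
    ∃ u, (cay S).dist x u ≤ t ∧ ∑ y ∈ H, tau S p hp u y ≤ 2⁻¹} with hgood
  set ax : Γ → ℝ≥0∞ := fun x => ∑' H : Finset Γ, Set.indicator (good x)
        (fun H => bP Γ p hp (evt S F H x)) H with hax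
  set a : ℝ≥0∞ := ∑ x ∈ Y, ax x with ha
  have h1 : m * bP Γ p hp {ω | meets S F 1 ω ∧ sz S ω 1 ≤ N} ≤ a := by
    apply sum_x hS hg p hp hfin F N m Y good
    intro ω H hH hN hm
    obtain ⟨X, hX1, hX2, hX3⟩ := hcount ω H hH hN hm
    exact ⟨X, hX1, hX2, fun x hx => ⟨(hX3 x hx).1, hN, (hX3 x hx).2⟩⟩
  have h2 : ∀ x ∈ Y, (XM S p hp M / 2) * ax x ≤
      (N + M : ℕ) * (κ * ∫⁻ ω, gx S F t x ω ∂(bP Γ p hp)) + ax x := by
    intro x hx
    have := one_x hS hg p hp hfin F t M N x ε κ (hκ x) (hball x hx) (hε x hx) (good x)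
      (fun H hH => hH)
    refine this.trans ?_
    gcongr
    calc (M * (ball S 1 t).card * ε) * ax x ≤ 1 * ax x := by gcongr
      _ = ax x := one_mul _
  have h3 : ∑ x ∈ Y, ∫⁻ ω, gx S F t x ω ∂(bP Γ p hp) ≤
      (ball S 1 t).card * bP Γ p hp {ω | meets S F 1 ω} := by
    rw [← lintegral_finset_sum _ (fun x _ => meas_gx S F t x)]
    calc ∫⁻ ω, ∑ x ∈ Y, gx S F t x ω ∂(bP Γ p hp)
        ≤ ∫⁻ ω, (ball S 1 t).card * Set.indicator {ω | meets S F 1 ω} (fun _ => (1 : ℝ≥0∞)) ω ∂(bP Γ p hp) := by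
          apply lintegral_mono_ae
          filter_upwards [fin_all p hp S hfin] with ω hω
          exact sum_gx_le hS hg F t Y ω (hω 1)
      _ = (ball S 1 t).card * ∫⁻ ω, Set.indicator {ω | meets S F 1 ω} (fun _ => (1 : ℝ≥0∞)) ω ∂(bP Γ p hp) := by
          rw [lintegral_const_mul' _ _ (ENNReal.natCast_ne_top _)]
      _ ≤ (ball S 1 t).card * (1 * bP Γ p hp {ω | meets S F 1 ω}) := by
          gcongr
          exact lintegral_indicator_const_le _ _
      _ = _ := by rw [one_mul]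
  have h4 : (XM S p hp M / 2) * a ≤
      (N + M : ℕ) * (κ * ((ball S 1 t).card * bP Γ p hp {ω | meets S F 1 ω})) + a := by
    calc (XM S p hp M / 2) * a = ∑ x ∈ Y, (XM S p hp M / 2) * ax x := by rw [ha, Finset.mul_sum]
      _ ≤ ∑ x ∈ Y, ((N + M : ℕ) * (κ * ∫⁻ ω, gx S F t x ω ∂(bP Γ p hp)) + ax x) := Finset.sum_le_sum h2
      _ = (N + M : ℕ) * (κ * ∑ x ∈ Y, ∫⁻ ω, gx S F t x ω ∂(bP Γ p hp)) + a := by
          rw [Finset.sum_add_distrib, Finset.mul_sum, Finset.mul_sum]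
      _ ≤ _ := by gcongr
  have h5 : ∀ x, ax x ≤ 1 := by
    intro x
    calc ax x ≤ ∑' H : Finset Γ, bP Γ p hp {ω | clus S ω 1 = ↑H} := by
          apply ENNReal.tsum_le_tsum
          intro H
          refine (Set.indicator_le_self' (fun _ _ => bot_le) H).trans ?_
          apply measure_mono
          intro ω hω
          exact hω.1
      _ ≤ bP Γ p hp Set.univ := by
          apply tsum_measure_le_measure_univ
          · intro H
            exact (meas_clus_eq S 1 H).nullMeasurableSet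
          · intro H H' hne
            apply Disjoint.aedisjoint
            rw [Set.disjoint_left]
            intro ω h1 h2
            apply hne
            have h1' : clus S ω 1 = ↑H := h1
            have h2' : clus S ω 1 = ↑H' := h2
            rw [h1'] at h2'
            exact_mod_cast h2'
      _ = 1 := measure_univ
  have h6 : a ≠ ⊤ := by
    rw [ha]
    exact ENNReal.sum_ne_top.2 fun x _ => ne_top_of_le_ne_top ENNReal.one_ne_top (h5 x)
  calc (XM S p hp M / 2 - 1) * (m * bP Γ p hp {ω | meets S F 1 ω ∧ sz S ω 1 ≤ N})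
      ≤ (XM S p hp M / 2 - 1) * a := by gcongr
    _ = (XM S p hp M / 2) * a - 1 * a := ENNReal.sub_mul (fun _ _ => h6)
    _ ≤ _ := by
        rw [one_mul]
        exact tsub_le_iff_right.2 h4

end Pool.Agent.IIC
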