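import Pool.Agent.IICG.Defs
import Pool.Agent.IICG.P_harris_meets
import Pool.Agent.IICG.P_tau_eq_pot

set_option autoImplicit false
set_option linter.unusedVariables false
set_option linter.unusedSectionVars false

/-!
# Zero density of the incipient infinite cluster: definitions

`Γ` is a group, `S` a finite set (symmetric, generating, in the theorem).  Bond percolation on the
Cayley graph `cay S` is modelled on configurations `Cfg Γ = Sym2 Γ → Bool`; only the bits at edges
of the Cayley graph are used.
-/

namespace Pool.Agent.IIC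
open MeasureTheory ProbabilityTheory
open scoped ENNReal NNReal
variable {Γ : Type} [Group Γ]


/-- the cluster of a vertex of low potential is unlikely to reach the far set -/
theorem meets_le [Countable Γ] {S : Finset Γ} (hS : Symm S) (hg : Gen S) (p : ℝ≥0) (hp : p ≤ 1)
    (hp0 : 0 < p) (n : ℕ) (w : Γ) :
    bP Γ p hp {ω | meets S (far S n) w ω} ≤
      ENNReal.ofReal (Real.exp (pot S p hp w)) * Z S p hp n := by
  have h1 : {ω : Cfg Γ | meets S (far S n) 1 ω} = {ω | R S n 1 ω} := by
    ext ω
    constructor
    · rintro ⟨f, hf, hf'⟩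
      exact ⟨f, hf', hf⟩
    · rintro ⟨f, hf, hf'⟩
      exact ⟨f, hf', hf⟩
  have h2 := harris_meets (S := S) p hp (far S n) w
  rw [h1, tau_eq_pot hS hg p hp hp0 w] at h2
  have h3 : ENNReal.ofReal (Real.exp (pot S p hp w)) *
      ENNReal.ofReal (Real.exp (- pot S p hp w)) = 1 := by
    rw [← ENNReal.ofReal_mul (Real.exp_pos _).le, ← Real.exp_add, add_neg_cancel, Real.exp_zero,
      ENNReal.ofReal_one]
  calc bP Γ p hp {ω | meets S (far S n) w ω}
      = ENNReal.ofReal (Real.exp (pot S p hp w)) * (ENNReal.ofReal (Real.exp (- pot S p hp w)) *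
        bP Γ p hp {ω | meets S (far S n) w ω}) := by rw [← mul_assoc, h3, one_mul]
    _ ≤ ENNReal.ofReal (Real.exp (pot S p hp w)) * Z S p hp n := mul_le_mul' le_rfl h2

end Pool.Agent.IIC
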