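import Pool.Agent.IICG.P_no_thin_exp

set_option autoImplicit false
set_option linter.unusedVariables false
set_option linter.unusedSectionVars false

namespace Pool.Agent.IIC

open MeasureTheory ProbabilityTheory
open scoped ENNReal NNReal

variable {Γ : Type} [Group Γ]

theorem no_thin [Countable Γ] [Infinite Γ] {S : Finset Γ} (hS : Symm S) (hg : Gen S)
    (hna : Nonamenable S)
    (p : ℝ≥0) (hp : p ≤ 1) (hp0 : 0 < p) (hp1 : p < 1) (hfin : Fin0 S p hp)
    (hX : Filter.Tendsto (fun M : ℕ => XM S p hp M) Filter.atTop (nhds ⊤))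
    (c : ℝ) (hc : 0 < c) (C : ℝ≥0) (A : ℕ) (c1 : ℝ≥0) (hc1 : 0 < c1) :
    ∃ n0 : ℕ, ∀ n ≥ n0, ¬ (Z S p hp n ≤ C * ENNReal.ofReal (Real.exp (-c * n)) ∧
      c1 * Z S p hp n ≤ bP Γ p hp {ω | R S n 1 ω ∧ sz S ω 1 ≤ (A * n : ℕ)}) := by
  obtain ⟨n0, h0⟩ := no_thin_exp hS hg hna p hp hp0 hp1 hfin hX (c / 2) (by positivity) A c1 hc1
  -- C * exp (-c n) ≤ exp (-(c/2) n) for n large
  have hlim : Filter.Tendsto (fun n : ℕ => (C : ℝ) * Real.exp (-(c / 2) * n)) Filter.atTop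
      (nhds 0) := by
    have h1 : Filter.Tendsto (fun n : ℕ => (c / 2) * (n : ℝ)) Filter.atTop Filter.atTop :=
      Filter.Tendsto.const_mul_atTop (by positivity) tendsto_natCast_atTop_atTop
    have h2 := (Real.tendsto_exp_neg_atTop_nhds_zero.comp h1).const_mul (C : ℝ)
    simp only [mul_zero] at h2
    refine h2.congr (fun n => ?_)
    simp [Function.comp]
  obtain ⟨n1, h1⟩ := Filter.eventually_atTop.1 (hlim.eventually (gt_mem_nhds one_pos))
  refine ⟨max n0 n1, fun n hn => ?_⟩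
  rintro ⟨hZ, hW⟩
  refine h0 n (le_trans (le_max_left _ _) hn) ⟨le_trans hZ ?_, hW⟩
  have h2 := h1 n (le_trans (le_max_right _ _) hn)
  have h3 : (C : ℝ≥0∞) = ENNReal.ofReal (C : ℝ) := by simp
  rw [h3, ← ENNReal.ofReal_mul C.coe_nonneg]
  apply ENNReal.ofReal_le_ofReal
  have h4 : Real.exp (-c * n) = Real.exp (-(c / 2) * n) * Real.exp (-(c / 2) * n) := by
    rw [← Real.exp_add]; congr 1; ring
  rw [h4, ← mul_assoc]
  calc (C : ℝ) * Real.exp (-(c / 2) * n) * Real.exp (-(c / 2) * n) ≤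
      1 * Real.exp (-(c / 2) * n) := by
        apply mul_le_mul_of_nonneg_right h2.le (Real.exp_pos _).le
    _ = Real.exp (-(c / 2) * n) := one_mul _

end Pool.Agent.IIC
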