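import Pool.Agent.IICG.Defs
import Pool.Agent.IIC.P_meas_ovr
import Pool.Agent.IIC.P_ovr_le

set_option autoImplicit false
set_option linter.unusedVariables false
set_option linter.unusedSectionVars false

/-!
# Zero density of the incipient infinite cluster: definitions

`Γ` is a group, `S` a finite set (symmetric, generating, in the theorem).  Bond percolation on the
Cayley graph `cay S` is modelled on configurations `Cfg Γ = Sym2 Γ → Bool`; only the bits at edges
of the Cayley graph are used.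
-/

namespace Pool.Agent.IIC
open MeasureTheory ProbabilityTheory
open scoped ENNReal NNReal
variable {Γ : Type} [Group Γ]


theorem ovr_lint (p : ℝ≥0) (hp : p ≤ 1) (E : Finset (Sym2 Γ)) (s : Cfg Γ) (f : Cfg Γ → ℝ≥0∞)
    (hf : Measurable f) :
    ((min p (1 - p) : ℝ≥0) : ℝ≥0∞) ^ E.card * ∫⁻ ω, f (ovr ω E s) ∂(bP Γ p hp) ≤
      ∫⁻ ω, f ω ∂(bP Γ p hp) := by
  have hm := meas_ovr E s
  have hle : (((min p (1 - p) : ℝ≥0) : ℝ≥0∞) ^ E.card) •
      MeasureTheory.Measure.map (fun ω : Cfg Γ => ovr ω E s) (bP Γ p hp) ≤ bP Γ p hp := by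
    rw [MeasureTheory.Measure.le_iff]
    intro A hA
    rw [MeasureTheory.Measure.smul_apply, MeasureTheory.Measure.map_apply hm hA, smul_eq_mul]
    exact ovr_le p hp E s A hA
  calc ((min p (1 - p) : ℝ≥0) : ℝ≥0∞) ^ E.card * ∫⁻ ω, f (ovr ω E s) ∂(bP Γ p hp)
      = ((min p (1 - p) : ℝ≥0) : ℝ≥0∞) ^ E.card *
          ∫⁻ ω, f ω ∂(MeasureTheory.Measure.map (fun ω : Cfg Γ => ovr ω E s) (bP Γ p hp)) := by
        rw [MeasureTheory.lintegral_map hf hm]
    _ = ∫⁻ ω, f ω ∂((((min p (1 - p) : ℝ≥0) : ℝ≥0∞) ^ E.card) •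
          MeasureTheory.Measure.map (fun ω : Cfg Γ => ovr ω E s) (bP Γ p hp)) := by
        rw [MeasureTheory.lintegral_smul_measure, smul_eq_mul]
    _ ≤ ∫⁻ ω, f ω ∂(bP Γ p hp) := MeasureTheory.lintegral_mono' hle le_rfl

end Pool.Agent.IIC
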