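import Pool.Agent.IICG.Defs
import Pool.Agent.IIC.P_card_T
import Pool.Agent.IICG.P_card_ball
import Pool.Agent.IICG.P_ovr_lint

set_option autoImplicit false
set_option linter.unusedVariables false
set_option linter.unusedSectionVars false

/-!
# Zero density of the incipient infinite cluster: definitions

`Γ` is a group, `S` a finite set (symmetric, generating, in the theorem).  Bond percolation on the
Cayley graph `cay S` is modelled on configurations `Cfg Γ = Sym2 Γ → Bool`; only the bits at edges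
of the Cayley graph are used.
-/

namespace Pool.Agent.IIC
open MeasureTheory ProbabilityTheory
open scoped ENNReal NNReal
variable {Γ : Type} [Group Γ]


/-- finite energy for all patterns in the ball of radius `t` about `x` -/
theorem pat_lint [Countable Γ] {S : Finset Γ} (hS : Symm S) (hg : Gen S) (p : ℝ≥0) (hp : p ≤ 1)
    (hp0 : 0 < p) (hp1 : p < 1) (t : ℕ) :
    ∃ κ : ℝ≥0, ∀ (x : Γ) (f : Cfg Γ → ℝ≥0∞), Measurable f →
      ∑ A ∈ (T S (ball S x t)).powerset, ∫⁻ ω, f (pat S t x A ω) ∂(bP Γ p hp) ≤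
        κ * ∫⁻ ω, f ω ∂(bP Γ p hp) := by
  have hm0 : (0 : ℝ≥0) < min p (1 - p) := lt_min hp0 (tsub_pos_of_lt hp1)
  have hm1 : min p (1 - p) ≤ 1 := (min_le_left _ _).trans hp
  obtain ⟨N, hN⟩ : ∃ N, N = S.card * (ball S 1 t).card := ⟨_, rfl⟩
  refine ⟨2 ^ N * ((min p (1 - p)) ^ N)⁻¹, fun x f hf => ?_⟩
  have hc : (T S (ball S x t)).card ≤ N := by
    rw [hN, ← card_ball hS hg x t]
    exact card_T _
  set m := min p (1 - p) with hm
  have hmE0 : ((m : ℝ≥0∞)) ^ N ≠ 0 := pow_ne_zero _ (by exact_mod_cast hm0.ne')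
  have hmEt : ((m : ℝ≥0∞)) ^ N ≠ ⊤ := ENNReal.pow_ne_top ENNReal.coe_ne_top
  have hone : ∀ A ∈ (T S (ball S x t)).powerset, ∫⁻ ω, f (pat S t x A ω) ∂(bP Γ p hp) ≤
      (((m : ℝ≥0∞)) ^ N)⁻¹ * ∫⁻ ω, f ω ∂(bP Γ p hp) := by
    intro A _
    rw [← ENNReal.mul_le_iff_le_inv hmE0 hmEt]
    have h1 : ((m : ℝ≥0∞)) ^ (T S (ball S x t)).card * ∫⁻ ω, f (pat S t x A ω) ∂(bP Γ p hp) ≤
        ∫⁻ ω, f ω ∂(bP Γ p hp) := ovr_lint p hp _ _ f hf
    refine le_trans ?_ h1
    exact mul_le_mul' (pow_le_pow_right_of_le_one' (by exact_mod_cast hm1) hc) le_rfl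
  refine (Finset.sum_le_card_nsmul _ _ _ hone).trans ?_
  rw [Finset.card_powerset, nsmul_eq_mul, ENNReal.coe_mul, ENNReal.coe_inv (pow_pos hm0 N).ne',
    mul_assoc]
  push_cast
  gcongr
  norm_num

end Pool.Agent.IIC
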