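import Pool.Agent.IICG.Defs
import Pool.Agent.IIC.P_mem_ball
import Pool.Agent.IIC.P_exists_sphere
import Pool.Agent.IIC.K
import Pool.Agent.IIC.P_tau_le_Z
import Pool.Agent.IIC.P_tau_pos
import Pool.Agent.IICG.P_pot_dist
import Pool.Agent.IICG.P_pot_far
import Pool.Agent.IICG.P_meets_le
import Pool.Agent.IICG.P_good_levels
import Pool.Agent.IICG.P_pat_lint
import Pool.Agent.IICG.P_main_ineq

set_option autoImplicit false
set_option linter.unusedVariables false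
set_option linter.unusedSectionVars false

/-!
# Zero density of the incipient infinite cluster: definitions

`Γ` is a group, `S` a finite set (symmetric, generating, in the theorem).  Bond percolation on the
Cayley graph `cay S` is modelled on configurations `Cfg Γ = Sym2 Γ → Bool`; only the bits at edges
of the Cayley graph are used.
-/

namespace Pool.Agent.IIC
open MeasureTheory ProbabilityTheory
open scoped ENNReal NNReal
variable {Γ : Type} [Group Γ]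


theorem no_thin_meets (S : Finset Γ) (n : ℕ) (ω : Cfg Γ) :
    meets S (far S n) 1 ω ↔ R S n 1 ω := by
  unfold meets far R
  constructor
  · rintro ⟨f, hf, h⟩
    exact ⟨f, h, hf⟩
  · rintro ⟨f, hf, h⟩
    exact ⟨f, h, hf⟩

theorem no_thin_final (D c1 κ : ℝ≥0) (c2 : ℝ) (A M n m β : ℕ) (Z0 : ℝ≥0∞) (hZ0 : Z0 ≠ 0)
    (hZt : Z0 ≠ ⊤) (hD : (A + 1 : ℝ) * κ * β + 1 ≤ D * (c1 * c2)) (hm : c2 * n ≤ m) (hMn : M ≤ n)
    (hn : 1 ≤ n)
    (h : (D : ℝ≥0∞) * (m * (c1 * Z0)) ≤ (A * n + M : ℕ) * (κ * (β * Z0))) : False := by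
  lift Z0 to ℝ≥0 using hZt
  have hz : (0 : ℝ) < Z0 := by
    have h1 : Z0 ≠ 0 := fun h => hZ0 (by rw [h]; rfl)
    exact_mod_cast pos_iff_ne_zero.2 h1
  have h2 : (D : ℝ) * (m * (c1 * Z0)) ≤ (A * n + M : ℕ) * (κ * (β * Z0)) := by
    exact_mod_cast h
  have h3 : ((D : ℝ) * (m * c1)) * Z0 ≤ ((A * n + M : ℕ) * (κ * β)) * Z0 := by
    calc ((D : ℝ) * (m * c1)) * Z0 = (D : ℝ) * (m * (c1 * Z0)) := by ring
      _ ≤ _ := h2
      _ = _ := by ring
  have h4 : (D : ℝ) * (m * c1) ≤ (A * n + M : ℕ) * (κ * β) := le_of_mul_le_mul_right h3 hz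
  have hn' : (1 : ℝ) ≤ n := by exact_mod_cast hn
  have h5 : ((A * n + M : ℕ) : ℝ) ≤ (A + 1) * n := by
    have : (M : ℝ) ≤ n := by exact_mod_cast hMn
    push_cast
    linarith
  have hκβ : (0 : ℝ) ≤ κ * β := by positivity
  have h6 : ((A * n + M : ℕ) : ℝ) * (κ * β) ≤ ((A + 1) * n) * (κ * β) :=
    mul_le_mul_of_nonneg_right h5 hκβ
  have h7 : (D : ℝ) * ((c2 * n) * c1) ≤ (D : ℝ) * (m * c1) := by
    apply mul_le_mul_of_nonneg_left _ D.2
    exact mul_le_mul_of_nonneg_right hm c1.2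
  have h8 : ((A + 1 : ℝ) * κ * β + 1) * n ≤ (D * (c1 * c2)) * n :=
    mul_le_mul_of_nonneg_right hD (by linarith)
  nlinarith

/-- (G): thin scales are impossible -/
theorem no_thin_exp [Countable Γ] [Infinite Γ] {S : Finset Γ} (hS : Symm S) (hg : Gen S)
    (hna : Nonamenable S)
    (p : ℝ≥0) (hp : p ≤ 1) (hp0 : 0 < p) (hp1 : p < 1) (hfin : Fin0 S p hp)
    (hX : Filter.Tendsto (fun M : ℕ => XM S p hp M) Filter.atTop (nhds ⊤))
    (c : ℝ) (hc : 0 < c) (A : ℕ) (c1 : ℝ≥0) (hc1 : 0 < c1) :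
    ∃ n0 : ℕ, ∀ n ≥ n0, ¬ (Z S p hp n ≤ ENNReal.ofReal (Real.exp (-c * n)) ∧
      c1 * Z S p hp n ≤ bP Γ p hp {ω | R S n 1 ω ∧ sz S ω 1 ≤ (A * n : ℕ)}) := by
  classical
  have hne : S.Nonempty := by
    rw [Finset.nonempty_iff_ne_empty]
    intro h0
    unfold Gen at hg
    rw [h0, Finset.coe_empty, Subgroup.closure_empty] at hg
    have h1 : Subsingleton Γ := by
      refine ⟨fun a b => ?_⟩
      have ha : a ∈ (⊥ : Subgroup Γ) := by rw [hg]; trivial
      have hb : b ∈ (⊥ : Subgroup Γ) := by rw [hg]; trivial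
      rw [Subgroup.mem_bot] at ha hb
      rw [ha, hb]
    exact not_finite Γ
  obtain ⟨ρ, hρ0, hρ1, hρ⟩ := kesten hS hna
  obtain ⟨t, c2, n1, hc2, hgood⟩ := good_levels hS hg hne p hp hp0 hp1 ρ hρ0 hρ1
    (fun k h x => conn_avg hS p hp hfin ρ hρ k h x) A c hc
  obtain ⟨κ, hκ⟩ := pat_lint hS hg p hp hp0 hp1 t
  obtain ⟨β, hβ⟩ : ∃ β : ℕ, β = (ball S 1 t).card := ⟨_, rfl⟩
  obtain ⟨D, hD⟩ : ∃ D : ℝ≥0, (A + 1 : ℝ) * κ * β + 1 ≤ D * (c1 * c2) := by
    have hc1' : (0 : ℝ) < c1 := by exact_mod_cast hc1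
    refine ⟨⟨((A + 1 : ℝ) * κ * β + 1) / (c1 * c2), by positivity⟩, ?_⟩
    show (A + 1 : ℝ) * κ * β + 1 ≤ ((A + 1 : ℝ) * κ * β + 1) / (c1 * c2) * (c1 * c2)
    rw [div_mul_cancel₀ _ (by positivity)]
  obtain ⟨M, hM⟩ : ∃ M : ℕ, (1 + D : ℝ≥0∞) ≤ XM S p hp M / 2 := by
    have h1 : ((1 + D : ℝ≥0∞) * 2) < ⊤ := by
      have : ((1 + D : ℝ≥0∞) * 2) = (((1 + D) * 2 : ℝ≥0) : ℝ≥0∞) := by push_cast; rfl
      rw [this]
      exact ENNReal.coe_lt_top
    obtain ⟨M, hM⟩ := ((hX.eventually (lt_mem_nhds h1))).exists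
    refine ⟨M, ?_⟩
    rw [ENNReal.le_div_iff_mul_le (Or.inl (by norm_num)) (Or.inl (by norm_num))]
    exact hM.le
  have hXM : 1 ≤ XM S p hp M / 2 := le_trans (by simp) hM
  have hDX : (D : ℝ≥0∞) ≤ XM S p hp M / 2 - 1 := by
    apply ENNReal.le_sub_of_add_le_left (by norm_num)
    exact hM
  obtain ⟨K, hK⟩ : ∃ K : ℝ, K = - Real.log p := ⟨_, rfl⟩
  have hlog0 : 0 ≤ Real.log ((M : ℝ) * β + 1) := by
    apply Real.log_nonneg
    have : (0 : ℝ) ≤ (M : ℝ) * β := by positivity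
    linarith
  obtain ⟨n2, hn2⟩ := exists_nat_ge ((t * K + Real.log ((M : ℝ) * β + 1) + 1) * 2 / c)
  refine ⟨n1 + M + 1 + n2, ?_⟩
  rintro n hn ⟨hZ, hc1Z⟩
  have hnn1 : n1 ≤ n := by omega
  have hnM : M ≤ n := by omega
  have hn1 : 1 ≤ n := by omega
  have hnn2 : (n2 : ℝ) ≤ n := by
    have : n2 ≤ n := by omega
    exact_mod_cast this
  have hcn : t * K + Real.log ((M : ℝ) * β + 1) + 1 ≤ c * n / 2 := by
    have h1 : (t * K + Real.log ((M : ℝ) * β + 1) + 1) * 2 / c ≤ n := hn2.trans hnn2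
    rw [div_le_iff₀ hc] at h1
    linarith
  have hn0 : (1 : ℝ) ≤ n := by exact_mod_cast hn1
  have hcnp : 0 < c * n := by positivity
  -- the potential in balls
  have hpot : ∀ x w, pot S p hp x ≤ c * n / 2 → w ∈ ball S x t →
      pot S p hp w ≤ c * n / 2 + t * K := by
    intro x w hx hw
    rw [mem_ball hS hg] at hw
    have h1 := pot_dist hS hg p hp hp0 x w t hw
    rw [← hK] at h1
    have h2 := abs_le.1 h1
    linarith [h2.1]
  obtain ⟨ε, hε⟩ : ∃ ε : ℝ≥0∞, ε = ENNReal.ofReal (Real.exp (t * K - c * n / 2)) := ⟨_, rfl⟩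
  have hmain := main_ineq hS hg p hp hfin (far S n) t M (A * n) ⌈c2 * n⌉₊ ε κ hκ
    ((ball S 1 n).filter (fun x => pot S p hp x ≤ c * n / 2))
    (by
      intro x hx w hw hwf
      rw [Finset.mem_filter] at hx
      have h1 := hpot x w hx.2 hw
      have h2 := pot_far hS hg p hp hp0 n c hZ w hwf
      linarith)
    (by
      intro x hx w hw
      rw [Finset.mem_filter] at hx
      have h1 := hpot x w hx.2 hw
      refine (meets_le hS hg p hp hp0 n w).trans ?_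
      have h2 : ENNReal.ofReal (Real.exp (pot S p hp w)) * Z S p hp n ≤
          ENNReal.ofReal (Real.exp (c * n / 2 + t * K)) * ENNReal.ofReal (Real.exp (-c * n)) :=
        mul_le_mul' (ENNReal.ofReal_le_ofReal (Real.exp_le_exp.2 h1)) hZ
      refine h2.trans (le_of_eq ?_)
      rw [hε, ← ENNReal.ofReal_mul (Real.exp_pos _).le, ← Real.exp_add]
      congr 2
      ring)
    (by
      rw [← hβ, hε]
      have h1 : ((M : ℝ≥0∞) * β * ENNReal.ofReal (Real.exp (t * K - c * n / 2))) =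
          ENNReal.ofReal ((M : ℝ) * β * Real.exp (t * K - c * n / 2)) := by
        rw [ENNReal.ofReal_mul (by positivity), ENNReal.ofReal_mul (by positivity),
          ENNReal.ofReal_natCast, ENNReal.ofReal_natCast]
      rw [h1, ← ENNReal.ofReal_one]
      apply ENNReal.ofReal_le_ofReal
      have hpos : (0 : ℝ) < (M : ℝ) * β + 1 := by positivity
      have h2 : Real.exp (t * K - c * n / 2) ≤ ((M : ℝ) * β + 1)⁻¹ := by
        calc Real.exp (t * K - c * n / 2) ≤ Real.exp (- Real.log ((M : ℝ) * β + 1)) := by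
              apply Real.exp_le_exp.2
              linarith
          _ = ((M : ℝ) * β + 1)⁻¹ := by rw [Real.exp_neg, Real.exp_log hpos]
      calc (M : ℝ) * β * Real.exp (t * K - c * n / 2) ≤ ((M : ℝ) * β) * ((M : ℝ) * β + 1)⁻¹ :=
            mul_le_mul_of_nonneg_left h2 (by positivity)
        _ ≤ ((M : ℝ) * β + 1) * ((M : ℝ) * β + 1)⁻¹ :=
            mul_le_mul_of_nonneg_right (by linarith) (by positivity)
        _ = 1 := mul_inv_cancel₀ hpos.ne')
    hXM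
    (by
      intro ω H hH hHc hmt
      obtain ⟨X, hXc, hX2⟩ := hgood n hnn1 hZ ω H hH hHc hmt
      refine ⟨X, ?_, Nat.ceil_le.2 hXc, fun x hx => ⟨(hX2 x hx).1, (hX2 x hx).2.2⟩⟩
      intro x hx
      rw [Finset.mem_filter, mem_ball hS hg]
      refine ⟨?_, (hX2 x hx).2.1⟩
      by_contra hcon
      have h1 : x ∈ far S n := (not_le.1 hcon).le
      have h2 := pot_far hS hg p hp hp0 n c hZ x h1
      have h3 := (hX2 x hx).2.1
      linarith)
  have e1 : {ω : Cfg Γ | meets S (far S n) 1 ω} = {ω | R S n 1 ω} := by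
    ext ω
    exact no_thin_meets S n ω
  have e2 : {ω : Cfg Γ | meets S (far S n) 1 ω ∧ sz S ω 1 ≤ ((A * n : ℕ) : ℝ≥0∞)} =
      {ω | R S n 1 ω ∧ sz S ω 1 ≤ ((A * n : ℕ) : ℝ≥0∞)} := by
    ext ω
    exact and_congr_left (fun _ => no_thin_meets S n ω)
  rw [e1, e2] at hmain
  have hZdef : bP Γ p hp {ω | R S n 1 ω} = Z S p hp n := rfl
  rw [hZdef, ← hβ] at hmain
  have hZt : Z S p hp n ≠ ⊤ := measure_ne_top _ _
  have hZ0 : Z S p hp n ≠ 0 := by
    obtain ⟨x, hx⟩ := exists_sphere hS hg n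
    have h1 := tau_le_Z p hp n x hx.ge
    exact (lt_of_lt_of_le (tau_pos hS hg p hp hp0 1 x) h1).ne'
  apply no_thin_final D c1 κ c2 A M n ⌈c2 * n⌉₊ β (Z S p hp n) hZ0 hZt hD (Nat.le_ceil _) hnM hn1
  refine le_trans ?_ hmain
  exact mul_le_mul' hDX (mul_le_mul' le_rfl hc1Z)

end Pool.Agent.IIC
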