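import Pool.Agent.IICG.P_sum_Beyond_le

/-!
Local surgery: attach the cluster of `u` to the trunk by a short path. Purely deterministic.
-/

set_option autoImplicit false
set_option linter.unusedVariables false
set_option linter.unusedSectionVars false

namespace Pool.Agent.IIC

open SimpleGraph

variable {V : Type}

/-- Last visit of a walk to a set. -/
theorem last_visit {G : SimpleGraph V} (P : Set V) {h u : V} (q : G.Walk h u)
    (hP : ∃ v ∈ q.support, v ∈ P) (hu : u ∉ P) :
    ∃ (g y : V) (_ : G.Adj g y) (q2 : G.Walk y u), g ∈ P ∧ (∀ v ∈ q2.support, v ∉ P) ∧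
      g ∈ q.support ∧ (∀ v ∈ q2.support, v ∈ q.support) := by
  induction q with
  | nil =>
    obtain ⟨v, hv, hvP⟩ := hP
    rw [Walk.support_nil, List.mem_singleton] at hv
    subst hv
    exact absurd hvP hu
  | @cons a c u hac q ih =>
    by_cases hex : ∃ v ∈ q.support, v ∈ P
    · obtain ⟨g, y, hgy, q2, h1, h2, h3, h4⟩ := ih hex hu
      refine ⟨g, y, hgy, q2, h1, h2, ?_, ?_⟩
      · rw [Walk.support_cons]; exact List.mem_cons_of_mem _ h3
      · intro v hv; rw [Walk.support_cons]; exact List.mem_cons_of_mem _ (h4 v hv)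
    · push Not at hex
      obtain ⟨v, hv, hvP⟩ := hP
      rw [Walk.support_cons, List.mem_cons] at hv
      rcases hv with rfl | hv
      · refine ⟨v, c, hac, q, hvP, hex, ?_, ?_⟩
        · simp
        · intro w hw; rw [Walk.support_cons]; exact List.mem_cons_of_mem _ hw
      · exact absurd hvP (hex v hv)

/-- The graph after surgery: the edges of `G0` between `W` and `H` are removed, the edges of `E`
are added. -/
def surgG (G0 : SimpleGraph V) (H W : Set V) (E : Set (Sym2 V)) : SimpleGraph V where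
  Adj a b := a ≠ b ∧ ((G0.Adj a b ∧ ¬ (a ∈ W ∧ b ∈ H) ∧ ¬ (b ∈ W ∧ a ∈ H)) ∨ s(a, b) ∈ E)
  symm := ⟨by
    rintro a b ⟨h1, h2⟩
    refine ⟨h1.symm, ?_⟩
    rcases h2 with ⟨h2, h3, h4⟩ | h2
    · exact Or.inl ⟨h2.symm, h4, h3⟩
    · exact Or.inr (by rwa [Sym2.eq_swap])⟩
  loopless := ⟨fun a h => h.1 rfl⟩

/-- Data of a surgery. -/
structure SurgData (G G0 : SimpleGraph V) (o : V) (H : Set V) (g y u : V) where
  /-- `H` is the component of `o` -/
  hH : H = {v | G0.Reachable o v}
  /-- end point -/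
  z : V
  /-- the trunk path -/
  γ : G0.Walk o z
  htrail : γ.IsTrail
  hg : g ∈ γ.support
  hgy : G.Adj g y
  /-- the inserted path -/
  q : G.Walk y u
  hq : ∀ v ∈ q.support, v ∉ γ.support
  hu : u ∉ H

namespace SurgData

variable {G G0 : SimpleGraph V} {o : V} {H : Set V} {g y u : V} (d : SurgData G G0 o H g y u)

/-- the inserted vertices -/
def W : Set V := {v | v ∈ d.q.support}

/-- the inserted edges -/
def E : Set (Sym2 V) := {e | e ∈ d.q.edges ∨ e = s(g, y)}

/-- the new graph -/
def G1 : SimpleGraph V := surgG G0 H d.W d.E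

include d in
theorem o_mem : o ∈ H := by
  rw [d.hH]; exact Reachable.refl _

include d in
theorem H_closed {a b : V} (ha : a ∈ H) (hab : G0.Adj a b) : b ∈ H := by
  rw [d.hH] at ha ⊢
  exact Reachable.trans ha hab.reachable

theorem supp_sub {v : V} (hv : v ∈ d.γ.support) : v ∈ H := by
  classical
  rw [d.hH]
  exact ⟨d.γ.takeUntil v hv⟩

include d in
theorem g_mem : g ∈ H := d.supp_sub d.hg

theorem W_not_supp {v : V} (hv : v ∈ d.W) : v ∉ d.γ.support := d.hq v hv

theorem g_not_W : g ∉ d.W := fun h => d.W_not_supp h d.hg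

theorem y_mem_W : y ∈ d.W := d.q.start_mem_support

theorem u_mem_W : u ∈ d.W := d.q.end_mem_support

/-- The set of vertices allowed beyond the new edge. -/
def D1 : Set V := d.W ∪ {v | ∃ w ∈ d.W, w ∉ H ∧ G0.Reachable w v}

theorem D1_closed {a b : V} (ha : a ∈ d.D1) (hab : d.G1.Adj a b) (hne : s(a, b) ≠ s(g, y)) :
    b ∈ d.D1 := by
  obtain ⟨hab0, hab | hab⟩ := hab
  · obtain ⟨h1, h2, h3⟩ := hab
    rcases ha with ha | ⟨w, hw, hwH, hr⟩
    · have hb : b ∉ H := fun hb => h2 ⟨ha, hb⟩
      have haH : a ∉ H := fun haH => hb (d.H_closed haH h1)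
      exact Or.inr ⟨a, ha, haH, h1.reachable⟩
    · exact Or.inr ⟨w, hw, hwH, hr.trans h1.reachable⟩
  · rcases hab with hab | hab
    · exact Or.inl (d.q.snd_mem_support_of_mem_edges hab)
    · exact absurd hab hne

theorem Beyond_sub : Beyond d.G1 g y ⊆ d.D1 := by
  intro v hv
  obtain ⟨p⟩ := hv
  have key : ∀ {a b : V} (p : (d.G1.deleteEdges {s(g, y)}).Walk a b), a ∈ d.D1 → b ∈ d.D1 := by
    intro a b p
    induction p with
    | nil => intro h; exact h
    | @cons a c b hac p ih =>
      intro ha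
      rw [deleteEdges_adj] at hac
      exact ih (d.D1_closed ha hac.1 (by simpa using hac.2))
  exact key p (Or.inl d.y_mem_W)

theorem supp_not_D1 {v : V} (hv : v ∈ d.γ.support) : v ∉ d.D1 := by
  rintro (h | ⟨w, hw, hwH, hr⟩)
  · exact d.W_not_supp h hv
  · have hvH := d.supp_sub hv
    apply hwH
    rw [d.hH] at hvH ⊢
    exact Reachable.trans hvH hr.symm

theorem y_reach {w : V} (hw : w ∈ d.W) : w ∈ Beyond d.G1 g y := by
  classical
  have hw' : w ∈ d.q.support := hw
  let q' := d.q.takeUntil w hw'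
  have hedge : ∀ e ∈ q'.edges, e ∈ (d.G1.deleteEdges {s(g, y)}).edgeSet := by
    intro e he
    have he2 : e ∈ d.q.edges := d.q.edges_takeUntil_subset_edges hw' he
    induction e using Sym2.ind with
    | _ a b =>
      rw [mem_edgeSet, deleteEdges_adj]
      have hadj : G.Adj a b := d.q.adj_of_mem_edges he2
      refine ⟨⟨hadj.ne, Or.inr (Or.inl he2)⟩, ?_⟩
      rw [Set.mem_singleton_iff]
      intro heq
      have hga : g ∈ s(a, b) := by rw [heq]; exact Sym2.mem_mk_left _ _
      rw [Sym2.mem_iff] at hga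
      rcases hga with rfl | rfl
      · exact d.g_not_W (d.q.fst_mem_support_of_mem_edges he2)
      · exact d.g_not_W (d.q.snd_mem_support_of_mem_edges he2)
  exact ⟨q'.transfer _ hedge⟩

theorem cluster_sub {v : V} (hv : G0.Reachable u v) : v ∈ Beyond d.G1 g y := by
  obtain ⟨p⟩ := hv
  have key : ∀ {a b : V} (p : G0.Walk a b), a ∉ H → a ∈ Beyond d.G1 g y →
      b ∈ Beyond d.G1 g y := by
    intro a b p
    induction p with
    | nil => intro _ h; exact h
    | @cons a c b hac p ih =>
      intro haH ha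
      have hcH : c ∉ H := fun hc => haH (d.H_closed hc hac.symm)
      refine ih hcH (Beyond_adj ha ⟨hac.ne, Or.inl ⟨hac, fun h => hcH h.2, fun h => haH h.2⟩⟩ ?_)
      intro heq
      have hga : g ∈ s(a, c) := by rw [heq]; exact Sym2.mem_mk_left _ _
      rw [Sym2.mem_iff] at hga
      rcases hga with rfl | rfl
      · exact haH d.g_mem
      · exact hcH d.g_mem
  exact key p d.hu (d.y_reach d.u_mem_W)

theorem gamma_edges : ∀ e ∈ d.γ.edges, e ∈ d.G1.edgeSet := by
  intro e he
  induction e using Sym2.ind with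
  | _ a b =>
    rw [mem_edgeSet]
    have hadj : G0.Adj a b := d.γ.adj_of_mem_edges he
    refine ⟨hadj.ne, Or.inl ⟨hadj, ?_, ?_⟩⟩
    · rintro ⟨h, -⟩
      exact d.W_not_supp h (d.γ.fst_mem_support_of_mem_edges he)
    · rintro ⟨h, -⟩
      exact d.W_not_supp h (d.γ.snd_mem_support_of_mem_edges he)

/-- The trunk path in the new graph. -/
def γ1 : d.G1.Walk o d.z := d.γ.transfer d.G1 d.gamma_edges

theorem γ1_support : d.γ1.support = d.γ.support := Walk.support_transfer _ _

theorem γ1_trail : d.γ1.IsTrail := by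
  have := d.htrail.edges_nodup
  rw [Walk.isTrail_def]
  unfold γ1
  rw [Walk.edges_transfer]
  exact this

theorem gy_adj : d.G1.Adj g y := ⟨d.hgy.ne, Or.inr (Or.inr rfl)⟩

/-- After the surgery `(g,y)` is a dead end. -/
theorem deadEnd (T : Set V) (hz : d.z ∈ T) (hW : ∀ w ∈ d.W, w ∉ T)
    (hK : ∀ w ∈ d.W, w ∉ H → ∀ v ∈ T, ¬ G0.Reachable w v) : DeadEnd d.G1 o T g y where
  adj := d.gy_adj
  bridge := fun h => d.supp_not_D1 d.hg (d.Beyond_sub h)
  root := fun h => d.supp_not_D1 d.γ.start_mem_support (d.Beyond_sub h)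
  target := by
    intro t ht h
    rcases d.Beyond_sub h with h | ⟨w, hw, hwH, hr⟩
    · exact hW t h ht
    · exact hK w hw hwH t ht hr
  trunk := ⟨d.z, hz, d.γ1, d.γ1_trail, by rw [d.γ1_support]; exact d.hg⟩

theorem component_sub : {v | d.G1.Reachable o v} ⊆ H ∪ Beyond d.G1 g y := by
  intro v hv
  obtain ⟨p⟩ := hv
  have key : ∀ {a b : V} (p : d.G1.Walk a b), a ∈ H ∪ Beyond d.G1 g y →
      b ∈ H ∪ Beyond d.G1 g y := by
    intro a b p
    induction p with
    | nil => intro h; exact h
    | @cons a c b hac p ih =>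
      intro ha
      apply ih
      by_cases he : s(a, c) = s(g, y)
      · rw [Sym2.eq_iff] at he
        rcases he with ⟨rfl, rfl⟩ | ⟨rfl, rfl⟩
        · exact Or.inr (self_mem_Beyond _ _ _)
        · exact Or.inl d.g_mem
      · rcases ha with ha | ha
        · obtain ⟨-, ⟨h1, -, -⟩ | h2 | h2⟩ := hac
          · exact Or.inl (d.H_closed ha h1)
          · exact Or.inr (d.y_reach (d.q.snd_mem_support_of_mem_edges h2))
          · exact absurd h2 he
        · exact Or.inr (Beyond_adj ha hac he)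
  exact key p (Or.inl d.o_mem)

end SurgData

end Pool.Agent.IIC
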